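import Pool.Agent.Lib.MP_610fe3_an.H6E.Main

/-!
# Growth and entropy pinching for manifolds
-/

open Set Filter Function Bundle
open scoped Manifold ContDiff Topology

namespace Pool.Agent.Lib.MP610fe3.H6

open Cf Gen Mfd

universe v

theorem frontier_nonempty_of_trap {X : Type*} [TopologicalSpace X] [ConnectedSpace X] {U : Set X}
    (hne : U.Nonempty) (huniv : U ≠ univ) : (frontier U).Nonempty := by
  by_contra h
  rw [not_nonempty_iff_eq_empty] at h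
  rcases isClopen_iff.1 (isClopen_iff_frontier_eq_empty.2 h) with h1 | h1
  · exact hne.ne_empty h1
  · exact huniv h1

theorem finrank_map_inj {A B : Type*} [AddCommGroup A] [Module ℝ A] [AddCommGroup B] [Module ℝ B]
    (L : A →ₗ[ℝ] B) (hL : Injective L) (F : Submodule ℝ A) :
    Module.finrank ℝ (F.map L) = Module.finrank ℝ F :=
  (LinearEquiv.finrank_eq (Submodule.equivMapOfInjective L hL F)).symm

variable {V : Type*} [NormedAddCommGroup V] [NormedSpace ℝ V] [FiniteDimensional ℝ V] {N : ℕ}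
  {M : Type v} [MetricSpace M] [CompactSpace M]
  [ChartedSpace V M] [IsManifold 𝓘(ℝ, V) ∞ M]
  [RiemannianBundle (fun x : M => TangentSpace 𝓘(ℝ, V) x)]
  [IsContinuousRiemannianBundle V (fun x : M => TangentSpace 𝓘(ℝ, V) x)]

/-- The range of the projection has the dimension of the bundle. -/
theorem finrank_range_eq (E : Emb M (EuclideanSpace ℝ (Fin N)))
    (hinj : ∀ x, Injective (mfderiv 𝓘(ℝ, V) (𝓡 N) E.e x))
    {F : ∀ x : M, Submodule ℝ (TangentSpace 𝓘(ℝ, V) x)}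
    {Q : M → EuclideanSpace ℝ (Fin N) →L[ℝ] EuclideanSpace ℝ (Fin N)}
    (hF : ∀ x, (Q x).range = (F x).map (mfderiv 𝓘(ℝ, V) (𝓡 N) E.e x).toLinearMap)
    {d : ℕ} (hd : ∀ x, Module.finrank ℝ (F x) = d) (x : M) :
    Module.finrank ℝ ((Q x).range) = d := by
  rw [← hd x]
  have h1 : Module.finrank ℝ ((Q x).range) =
      Module.finrank ℝ ((F x).map (mfderiv 𝓘(ℝ, V) (𝓡 N) E.e x).toLinearMap) :=
    congrArg (fun S : Submodule ℝ (EuclideanSpace ℝ (Fin N)) => Module.finrank ℝ S) (hF x)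
  exact h1.trans (finrank_map_inj (mfderiv 𝓘(ℝ, V) (𝓡 N) E.e x).toLinearMap (hinj x) (F x))

theorem exp_rate (χ : ℝ) (k : ℕ) : Real.exp (χ * k) = Real.exp χ ^ k := by
  rw [← Real.exp_nat_mul, mul_comm]

theorem mfd_pinching [ConnectedSpace M] (e : M → EuclideanSpace ℝ (Fin N)) (hiso : Isometry e)
    (he : ContMDiff 𝓘(ℝ, V) (𝓡 N) ∞ e)
    (hinj : ∀ x, Injective (mfderiv 𝓘(ℝ, V) (𝓡 N) e x))
    (f : M ≃ₘ^1⟮𝓘(ℝ, V), 𝓘(ℝ, V)⟯ M)
    (Es Eu : ∀ x : M, Submodule ℝ (TangentSpace 𝓘(ℝ, V) x)) (hA : Gen.IsAnosovSplitting f Es Eu)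
    {ds du : ℕ} (hds : ∀ x, Module.finrank ℝ (Es x) = ds)
    (hdu : ∀ x, Module.finrank ℝ (Eu x) = du) {C χs χu bs bu : ℝ} (hχs : 0 < χs) (hχu : 0 < χu)
    (hs : ∀ (k : ℕ) (x : M), ∀ v ∈ Es x,
      ‖mfderiv 𝓘(ℝ, V) 𝓘(ℝ, V) ((⇑f)^[k]) x v‖ ≤ C * Real.exp (-χs * k) * ‖v‖)
    (hu : ∀ (k : ℕ) (x : M), ∀ v ∈ Eu x,
      ‖mfderiv 𝓘(ℝ, V) 𝓘(ℝ, V) ((⇑f.symm)^[k]) x v‖ ≤ C * Real.exp (-χu * k) * ‖v‖)
    (hbs : (∀ (k : ℕ) (x : M), ∀ v ∈ Es x,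
      ‖mfderiv 𝓘(ℝ, V) 𝓘(ℝ, V) ((⇑f.symm)^[k]) x v‖ ≤ C * Real.exp (bs * k) * ‖v‖) ∨
      Dynamics.coverEntropy f (univ : Set M) ≤ ((bs + (ds - 1) * χs : ℝ) : EReal))
    (hbu : (∀ (k : ℕ) (x : M), ∀ v ∈ Eu x,
      ‖mfderiv 𝓘(ℝ, V) 𝓘(ℝ, V) ((⇑f)^[k]) x v‖ ≤ C * Real.exp (bu * k) * ‖v‖) ∨
      Dynamics.coverEntropy f (univ : Set M) ≤ ((bu + (du - 1) * χu : ℝ) : EReal))
    (hpinch : (bu - χu) * (bs - χs) < χu * χs) : TopTransitive f := by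
  obtain ⟨E, hE, hEP, hr⟩ := Gen.exists_emb e hiso he hinj
  subst hE
  obtain ⟨s, hsH, hsS, hsU⟩ := Gen.exists_split E he hinj hr f Es Eu hA
  obtain ⟨K, hK1, hK⟩ := s.exists_bdd
  have hK0 : 0 ≤ K := by linarith
  have hC0 : 0 ≤ max C 0 := le_max_right _ _
  have hup : ∀ {κ : ℝ} (k : ℕ) {t u : ℝ}, 0 ≤ κ → 0 ≤ t → u ≤ C * κ ^ k * t →
      u ≤ max C 0 * κ ^ k * t := by
    intro κ k t u hκ ht h
    refine h.trans ?_
    have : 0 ≤ κ ^ k := pow_nonneg hκ k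
    gcongr
    exact le_max_left _ _
  simp only [exp_rate] at hs hu hbs hbu
  obtain ⟨C₁, hC₁, H₁⟩ := rate_transfer E he hinj hEP f.contMDiff s.hD hK0 (fun x => (hK x).1)
    hsS hC0 (Real.exp_pos _).le (fun k x v hv => hup k (Real.exp_pos _).le (norm_nonneg _)
      (hs k x v hv))
  obtain ⟨C₂, hC₂, H₂⟩ := rate_transfer E he hinj hEP f.symm.contMDiff s.hDi hK0
    (fun x => (hK x).2) hsU hC0 (Real.exp_pos _).le
    (fun k x v hv => hup k (Real.exp_pos _).le (norm_nonneg _) (hu k x v hv))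
  have hcov : ∀ {b : ℝ}, Dynamics.coverEntropy f (univ : Set M) ≤ (b : EReal) →
      ∀ h : ℝ, b < h → HasCovers f.toHomeomorph h := by
    intro b hb h hbh
    refine hasCovers_of_entropy specEnt f.continuous ?_
    exact hb.trans_lt (by exact_mod_cast hbh)
  have hbs' : ∃ C₃ : ℝ, 0 ≤ C₃ ∧ ((∀ (k : ℕ) (x : M) (w : EuclideanSpace ℝ (Fin N)),
      ‖iterD s.Di f.toHomeomorph.symm k x (s.S x w)‖ ≤ C₃ * Real.exp bs ^ k * ‖w‖) ∨
      ∀ h : ℝ, bs + ((ds : ℝ) - 1) * χs < h → HasCovers f.toHomeomorph h) := by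
    rcases hbs with hbs | hbs
    · obtain ⟨C₃, hC₃, H₃⟩ := rate_transfer E he hinj hEP f.symm.contMDiff s.hDi hK0
        (fun x => (hK x).1) hsS hC0 (Real.exp_pos _).le
        (fun k x v hv => hup k (Real.exp_pos _).le (norm_nonneg _) (hbs k x v hv))
      exact ⟨C₃, hC₃, Or.inl H₃⟩
    · exact ⟨0, le_rfl, Or.inr (hcov hbs)⟩
  have hbu' : ∃ C₄ : ℝ, 0 ≤ C₄ ∧ ((∀ (k : ℕ) (x : M) (w : EuclideanSpace ℝ (Fin N)),
      ‖iterD s.D f.toHomeomorph k x (s.U x w)‖ ≤ C₄ * Real.exp bu ^ k * ‖w‖) ∨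
      ∀ h : ℝ, bu + ((du : ℝ) - 1) * χu < h → HasCovers f.toHomeomorph h) := by
    rcases hbu with hbu | hbu
    · obtain ⟨C₄, hC₄, H₄⟩ := rate_transfer E he hinj hEP f.contMDiff s.hD hK0
        (fun x => (hK x).2) hsU hC0 (Real.exp_pos _).le
        (fun k x v hv => hup k (Real.exp_pos _).le (norm_nonneg _) (hbu k x v hv))
      exact ⟨C₄, hC₄, Or.inl H₄⟩
    · exact ⟨0, le_rfl, Or.inr (hcov hbu)⟩
  obtain ⟨C₃, hC₃, H₃⟩ := hbs'
  obtain ⟨C₄, hC₄, H₄⟩ := hbu'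
  set C' : ℝ := max (max C₁ C₂) (max C₃ C₄) with hC'
  have hC'0 : 0 ≤ C' := hC₁.trans ((le_max_left _ _).trans (le_max_left _ _))
  have hup' : ∀ {κ c : ℝ} (k : ℕ) {t u : ℝ}, c ≤ C' → 0 ≤ κ → 0 ≤ t → u ≤ c * κ ^ k * t →
      u ≤ C' * κ ^ k * t := by
    intro κ c k t u hc hκ ht h
    refine h.trans ?_
    have : 0 ≤ κ ^ k := pow_nonneg hκ k
    gcongr
  refine topTransitive_of_shadowing (s.shadowing hsH) ?_
  by_contra hct
  obtain ⟨U, hU, hne, huniv⟩ := Cf.H1.exists_trap hct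
  obtain ⟨q, hq⟩ := frontier_nonempty_of_trap hne huniv
  exact split_noTrap s hsH (finrank_range_eq E hinj hsS hds) (finrank_range_eq E hinj hsU hdu)
    hC'0 hχs hχu
    (fun k x w => hup' k ((le_max_left _ _).trans (le_max_left _ _)) (Real.exp_pos _).le
      (norm_nonneg _) (H₁ k x w))
    (fun k x w => hup' k ((le_max_right _ _).trans (le_max_left _ _)) (Real.exp_pos _).le
      (norm_nonneg _) (H₂ k x w))
    (H₃.imp (fun h k x w => hup' k ((le_max_left _ _).trans (le_max_right _ _))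
      (Real.exp_pos _).le (norm_nonneg _) (h k x w)) id)
    (H₄.imp (fun h k x w => hup' k ((le_max_right _ _).trans (le_max_right _ _))
      (Real.exp_pos _).le (norm_nonneg _) (h k x w)) id)
    hpinch hU.1 hU.2.image_subset hq

end Pool.Agent.Lib.MP610fe3.H6
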