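import Pool.Agent.Lib.MP_610fe3_an.H6E.Spec

/-!
# Averaging over straight segments

A finite closed cover of a ball by sets of diameter `≤ r i`: pairs of points that cannot be joined by
at most `K` of the sets have small product measure.
-/

open Set Filter Function MeasureTheory
open scoped Topology ENNReal

namespace Pool.Agent.Lib.MP610fe3.H6

/-- A chain of `L` sets of the family `D`, with junction points in `S`. -/
def AvgChain {X ι : Type*} (D : ι → Set X) (S : Set X) (L : ℕ) (z w : X) : Prop :=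
  ∃ (p : ℕ → X) (c : ℕ → ι), p 0 = z ∧ p L = w ∧ (∀ i ≤ L, p i ∈ S) ∧
    ∀ i < L, p i ∈ D (c i) ∧ p (i + 1) ∈ D (c i)

section Chain

variable {X ι : Type*} {D : ι → Set X} {S : Set X}

theorem AvgChain.extend {L : ℕ} {z x y : X} (h : AvgChain D S L z x) {j : ι}
    (hx : x ∈ D j) (hy : y ∈ D j) (hyS : y ∈ S) : AvgChain D S (L + 1) z y := by
  classical
  obtain ⟨p, c, h0, hL, hS, hc⟩ := h
  refine ⟨fun i => if i ≤ L then p i else y, fun i => if i < L then c i else j, ?_, ?_, ?_, ?_⟩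
  · simp [h0]
  · simp
  · intro i _
    by_cases hi : i ≤ L
    · simp only [hi, if_true]; exact hS i hi
    · simp only [hi, if_false]; exact hyS
  · intro i hi
    by_cases hiL : i < L
    · have h1 : i ≤ L := hiL.le
      have h2 : i + 1 ≤ L := hiL
      simp only [h1, h2, hiL, if_true]
      exact hc i hiL
    · have hi' : i = L := by omega
      subst hi'
      simp only [le_refl, if_true, lt_irrefl, if_false]
      have h2 : ¬ (i + 1 ≤ i) := by omega
      simp only [h2, if_false, hL]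
      exact ⟨hx, hy⟩

theorem AvgChain.shorten {L : ℕ} {z w : X} {p : ℕ → X} {c : ℕ → ι} (h0 : p 0 = z) (hL : p L = w)
    (hS : ∀ i ≤ L, p i ∈ S) (hc : ∀ i < L, p i ∈ D (c i) ∧ p (i + 1) ∈ D (c i))
    {i i' : ℕ} (hii : i < i') (hi' : i' < L) (hcc : c i = c i') :
    AvgChain D S (L - (i' - i)) z w := by
  classical
  refine ⟨fun k => if k ≤ i then p k else p (k + (i' - i)),
    fun k => if k < i then c k else c (k + (i' - i)), ?_, ?_, ?_, ?_⟩
  · simp [h0]
  · have h1 : ¬ (L - (i' - i) ≤ i) := by omega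
    have h2 : L - (i' - i) + (i' - i) = L := by omega
    simp only [h1, if_false, h2, hL]
  · intro k hk
    by_cases hki : k ≤ i
    · simp only [hki, if_true]; exact hS k (by omega)
    · simp only [hki, if_false]; exact hS _ (by omega)
  · intro k hk
    by_cases hki : k < i
    · have h1 : k ≤ i := hki.le
      have h2 : k + 1 ≤ i := hki
      simp only [hki, h1, h2, if_true]
      exact hc k (by omega)
    · by_cases hki' : k = i
      · subst hki'
        have h2 : ¬ (k + 1 ≤ k) := by omega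
        have h3 : k + (i' - k) = i' := by omega
        have h4 : k + 1 + (i' - k) = i' + 1 := by omega
        simp only [lt_irrefl, if_false, le_refl, if_true, h2, h3, h4]
        exact ⟨hcc ▸ (hc k (by omega)).1, (hc i' hi').2⟩
      · have h1 : ¬ (k ≤ i) := by omega
        have h2 : ¬ (k + 1 ≤ i) := by omega
        have h4 : k + 1 + (i' - i) = k + (i' - i) + 1 := by omega
        simp only [hki, h1, h2, if_false, h4]
        exact hc _ (by omega)

theorem exists_avgChain [TopologicalSpace X] [Finite ι] (hD : ∀ i, IsClosed (D i))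
    (hS : IsPreconnected S) (hcov : S ⊆ ⋃ i, D i) {z w : X} (hz : z ∈ S) (hw : w ∈ S) :
    ∃ L, AvgChain D S L z w := by
  classical
  by_contra hcon
  set J : Set ι := {j | ∃ x ∈ D j ∩ S, ∃ L, AvgChain D S L z x} with hJ
  have hcl1 : IsClosed (⋃ j ∈ J, D j) := (Set.toFinite J).isClosed_biUnion (fun j _ => hD j)
  have hcl2 : IsClosed (⋃ j ∈ Jᶜ, D j) := (Set.toFinite Jᶜ).isClosed_biUnion (fun j _ => hD j)
  have hsub : S ⊆ (⋃ j ∈ J, D j) ∪ ⋃ j ∈ Jᶜ, D j := by
    intro x hx
    obtain ⟨j, hj⟩ := mem_iUnion.1 (hcov hx)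
    by_cases hjJ : j ∈ J
    · exact Or.inl (mem_biUnion hjJ hj)
    · exact Or.inr (mem_biUnion hjJ hj)
  obtain ⟨j0, hj0⟩ := mem_iUnion.1 (hcov hz)
  have hz0 : AvgChain D S 0 z z := ⟨fun _ => z, fun _ => j0, rfl, rfl, fun _ _ => hz, fun i hi => by omega⟩
  have hj0J : j0 ∈ J := ⟨z, ⟨hj0, hz⟩, 0, hz0⟩
  have key : ∀ x ∈ S, ∀ j ∈ J, x ∈ D j → ∃ L, AvgChain D S L z x := by
    rintro x hx j ⟨y, ⟨hyD, _⟩, L, hL⟩ hxj
    exact ⟨L + 1, hL.extend hyD hxj hx⟩
  obtain ⟨jw, hjw⟩ := mem_iUnion.1 (hcov hw)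
  have hjwJ : jw ∈ Jᶜ := fun hmem => hcon (key w hw jw hmem hjw)
  obtain ⟨x, hxS, hx1, hx2⟩ := isPreconnected_closed_iff.1 hS _ _ hcl1 hcl2 hsub
    ⟨z, hz, mem_biUnion hj0J hj0⟩ ⟨w, hw, mem_biUnion hjwJ hjw⟩
  obtain ⟨j, hj, hxj⟩ := mem_iUnion₂.1 hx1
  obtain ⟨j', hj', hxj'⟩ := mem_iUnion₂.1 hx2
  exact hj' ⟨x, ⟨hxj', hxS⟩, key x hxS j hj hxj⟩

/-- The number of sets meeting the segment is at least the length of a shortest chain. -/
theorem avgChain_card [TopologicalSpace X] [Fintype ι] (hD : ∀ i, IsClosed (D i))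
    (hS : IsPreconnected S) (hcov : S ⊆ ⋃ i, D i) {z w : X} (hz : z ∈ S) (hw : w ∈ S) {K : ℕ}
    (hK : ∀ L ≤ K, ¬ AvgChain D S L z w) (s : Finset ι) (hs : ∀ i, (D i ∩ S).Nonempty → i ∈ s) :
    K < s.card := by
  classical
  have hex := exists_avgChain hD hS hcov hz hw
  set L := Nat.find hex with hLdef
  have hL : AvgChain D S L z w := Nat.find_spec hex
  have hmin : ∀ m < L, ¬ AvgChain D S m z w := fun m hm => Nat.find_min hex hm
  obtain ⟨p, c, h0, h1, h2, h3⟩ := hL
  have hinj : Set.InjOn c (Finset.range L : Set ℕ) := by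
    intro i hi i' hi' hcc
    simp only [Finset.coe_range, mem_Iio] at hi hi'
    rcases lt_trichotomy i i' with hlt | heq | hgt
    · exact absurd (AvgChain.shorten h0 h1 h2 h3 hlt hi' hcc) (hmin _ (by omega))
    · exact heq
    · exact absurd (AvgChain.shorten h0 h1 h2 h3 hgt hi hcc.symm) (hmin _ (by omega))
  have hcard : ((Finset.range L).image c).card = L := by
    rw [Finset.card_image_of_injOn hinj, Finset.card_range]
  have hsub : (Finset.range L).image c ⊆ s := by
    intro i hi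
    obtain ⟨k, hk, rfl⟩ := Finset.mem_image.1 hi
    have hk' : k < L := Finset.mem_range.1 hk
    exact hs _ ⟨p k, (h3 k hk').1, h2 k hk'.le⟩
  have hle := Finset.card_le_card hsub
  rw [hcard] at hle
  have hKL : K < L := by
    by_contra hcon
    exact hK L (not_lt.1 hcon) ⟨p, c, h0, h1, h2, h3⟩
  omega

end Chain

section Measure

variable {u : ℕ}


/-- Pairs of points of the ball whose point at time `s` is close to `a`. -/
def avgSet (ρ : ℝ) (a : EuclideanSpace ℝ (Fin u)) (R s : ℝ) :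
    Set (EuclideanSpace ℝ (Fin u) × EuclideanSpace ℝ (Fin u)) :=
  {q | q.1 ∈ Metric.closedBall (0 : EuclideanSpace ℝ (Fin u)) ρ ∧
    q.2 ∈ Metric.closedBall (0 : EuclideanSpace ℝ (Fin u)) ρ ∧
    ‖(1 - s) • q.1 + s • q.2 - a‖ ≤ R}

theorem isClosed_avgSet (ρ : ℝ) (a : EuclideanSpace ℝ (Fin u)) (R s : ℝ) :
    IsClosed (avgSet ρ a R s) := by
  have h3 : IsClosed {q : EuclideanSpace ℝ (Fin u) × EuclideanSpace ℝ (Fin u) |
      ‖(1 - s) • q.1 + s • q.2 - a‖ ≤ R} := by
    apply isClosed_le _ continuous_const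
    fun_prop
  exact (Metric.isClosed_closedBall.preimage continuous_fst).inter
    ((Metric.isClosed_closedBall.preimage continuous_snd).inter h3)

theorem avg_fiber (a b : EuclideanSpace ℝ (Fin u)) {R s : ℝ} (hs : 1 / 2 ≤ s) :
    {w : EuclideanSpace ℝ (Fin u) | ‖b + s • w - a‖ ≤ R} ⊆
      Metric.closedBall (s⁻¹ • (a - b)) (2 * R) := by
  intro w hw
  have hs0 : 0 < s := by linarith
  rw [mem_ofPred_eq] at hw
  have hR : 0 ≤ R := (norm_nonneg _).trans hw
  rw [Metric.mem_closedBall, dist_eq_norm]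
  have h1 : w - s⁻¹ • (a - b) = s⁻¹ • (b + s • w - a) := by
    rw [smul_sub, smul_sub, smul_add, smul_smul, inv_mul_cancel₀ hs0.ne', one_smul]
    abel
  rw [h1, norm_smul, Real.norm_eq_abs, abs_of_pos (inv_pos.2 hs0)]
  have h2 : s⁻¹ ≤ 2 := by
    rw [inv_le_comm₀ hs0 (by norm_num)]; linarith
  exact mul_le_mul h2 hw (norm_nonneg _) (by norm_num)

theorem volume_closedBall_eq (a : EuclideanSpace ℝ (Fin u)) {R : ℝ} (hR : 0 ≤ R) :
    volume (Metric.closedBall a R) =
      ENNReal.ofReal (R ^ u) * volume (Metric.closedBall (0 : EuclideanSpace ℝ (Fin u)) 1) := by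
  have := Measure.addHaar_closedBall' (volume : Measure (EuclideanSpace ℝ (Fin u))) a hR
  simpa using this

theorem volume_avgSet (ρ : ℝ) (a : EuclideanSpace ℝ (Fin u)) {R s : ℝ} (hR : 0 ≤ R) :
    (volume.prod volume) (avgSet ρ a R s) ≤
      ENNReal.ofReal ((2 * R) ^ u) * volume (Metric.closedBall (0 : EuclideanSpace ℝ (Fin u)) 1) *
        volume (Metric.closedBall (0 : EuclideanSpace ℝ (Fin u)) ρ) := by
  classical
  set B := Metric.closedBall (0 : EuclideanSpace ℝ (Fin u)) ρ with hB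
  have hBm : MeasurableSet B := Metric.isClosed_closedBall.measurableSet
  set c := ENNReal.ofReal ((2 * R) ^ u) *
    volume (Metric.closedBall (0 : EuclideanSpace ℝ (Fin u)) 1) with hc
  have hmeas : MeasurableSet (avgSet ρ a R s) := (isClosed_avgSet ρ a R s).measurableSet
  have h2R : 0 ≤ 2 * R := by linarith
  rcases le_or_gt (1 / 2) s with hs | hs
  · rw [Measure.prod_apply hmeas]
    have h1 : ∀ z, volume (Prod.mk z ⁻¹' avgSet ρ a R s) ≤ B.indicator (fun _ => c) z := by
      intro z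
      by_cases hz : z ∈ B
      · rw [indicator_of_mem hz, hc, ← volume_closedBall_eq (s⁻¹ • (a - (1 - s) • z)) h2R]
        apply measure_mono
        intro w hw
        exact avg_fiber a ((1 - s) • z) hs hw.2.2
      · rw [indicator_of_notMem hz]
        have : Prod.mk z ⁻¹' avgSet ρ a R s = ∅ := by
          ext w
          simp only [mem_preimage, avgSet, mem_ofPred_eq, mem_empty_iff_false, iff_false]
          exact fun h => hz h.1
        rw [this]; simp
    refine (lintegral_mono h1).trans ?_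
    rw [lintegral_indicator_const hBm]
  · rw [Measure.prod_apply_symm hmeas]
    have h1 : ∀ z, volume ((fun x => (x, z)) ⁻¹' avgSet ρ a R s) ≤ B.indicator (fun _ => c) z := by
      intro z
      by_cases hz : z ∈ B
      · rw [indicator_of_mem hz, hc, ← volume_closedBall_eq ((1 - s)⁻¹ • (a - s • z)) h2R]
        apply measure_mono
        intro w hw
        have h2 : ‖s • z + (1 - s) • w - a‖ ≤ R := by
          rw [add_comm]; exact hw.2.2
        exact avg_fiber a (s • z) (by linarith) h2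
      · rw [indicator_of_notMem hz]
        have : (fun x => (x, z)) ⁻¹' avgSet ρ a R s = ∅ := by
          ext w
          simp only [mem_preimage, avgSet, mem_ofPred_eq, mem_empty_iff_false, iff_false]
          exact fun h => hz h.2.1
        rw [this]; simp
    refine (lintegral_mono h1).trans ?_
    rw [lintegral_indicator_const hBm]

/-- The pairs whose segment meets the ball of radius `r` around `a`. -/
def avgUnion (ρ : ℝ) (a : EuclideanSpace ℝ (Fin u)) (r : ℝ) (m : ℕ) :
    Set (EuclideanSpace ℝ (Fin u) × EuclideanSpace ℝ (Fin u)) :=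
  ⋃ k ∈ Finset.range (m + 1), avgSet ρ a (2 * r) ((k : ℝ) / m)

theorem mem_avgUnion {ρ : ℝ} {a z w x : EuclideanSpace ℝ (Fin u)} {r : ℝ} {m : ℕ} (hm : 0 < m)
    (hr : 0 < r) (hmr : 2 * ρ / r ≤ m)
    (hz : z ∈ Metric.closedBall (0 : EuclideanSpace ℝ (Fin u)) ρ)
    (hw : w ∈ Metric.closedBall (0 : EuclideanSpace ℝ (Fin u)) ρ)
    (hx : x ∈ segment ℝ z w) (hxa : dist x a ≤ r) : (z, w) ∈ avgUnion ρ a r m := by
  have hm' : (0 : ℝ) < m := Nat.cast_pos.2 hm
  rw [segment_eq_image ℝ z w] at hx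
  obtain ⟨t, ⟨ht0, ht1⟩, rfl⟩ := hx
  set k : ℕ := ⌊t * m⌋₊ with hk
  have htm : 0 ≤ t * m := by positivity
  have hk1 : (k : ℝ) ≤ t * m := Nat.floor_le htm
  have hk2 : t * m < k + 1 := Nat.lt_floor_add_one _
  have hkm : k ≤ m := by
    have : (k : ℝ) ≤ m := hk1.trans (by nlinarith)
    exact_mod_cast this
  refine mem_biUnion (x := k) (by simp; omega) ⟨hz, hw, ?_⟩
  have hd : |t - k / m| ≤ 1 / m := by
    rw [abs_le]
    constructor
    · have : (k : ℝ) / m ≤ t := by rw [div_le_iff₀ hm']; exact hk1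
      have h2 : (0 : ℝ) ≤ 1 / m := by positivity
      linarith
    · have : t - k / m = (t * m - k) / m := by field_simp
      rw [this]
      gcongr
      linarith
  have hzw : ‖z - w‖ ≤ 2 * ρ := by
    have h1 := Metric.mem_closedBall.1 hz
    have h2 := Metric.mem_closedBall.1 hw
    rw [dist_zero_right] at h1 h2
    linarith [norm_sub_le z w]
  have heq : (1 - (k : ℝ) / m) • z + ((k : ℝ) / m) • w - a =
      ((1 - t) • z + t • w - a) + (t - k / m) • (z - w) := by
    simp only [sub_smul, smul_sub, one_smul]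
    abel
  have hρr : 1 / (m : ℝ) * (2 * ρ) ≤ r := by
    rw [div_mul_eq_mul_div, one_mul, div_le_iff₀ hm']
    rw [div_le_iff₀ hr] at hmr
    linarith
  show ‖(1 - (k : ℝ) / m) • z + ((k : ℝ) / m) • w - a‖ ≤ 2 * r
  rw [heq]
  refine (norm_add_le _ _).trans ?_
  rw [norm_smul, Real.norm_eq_abs]
  have h3 : ‖(1 - t) • z + t • w - a‖ ≤ r := by
    rw [dist_eq_norm] at hxa; exact hxa
  have h4 : |t - k / m| * ‖z - w‖ ≤ 1 / m * (2 * ρ) :=
    mul_le_mul hd hzw (norm_nonneg _) (by positivity)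
  linarith

theorem isClosed_avgUnion (ρ : ℝ) (a : EuclideanSpace ℝ (Fin u)) (r : ℝ) (m : ℕ) :
    IsClosed (avgUnion ρ a r m) :=
  (Finset.range (m + 1)).finite_toSet.isClosed_biUnion (fun _ _ => isClosed_avgSet _ _ _ _)

theorem volume_avgUnion (ρ : ℝ) (a : EuclideanSpace ℝ (Fin u)) {r : ℝ} (hr : 0 ≤ r) (m : ℕ) :
    (volume.prod volume) (avgUnion ρ a r m) ≤ ((m : ENNReal) + 1) *
      (ENNReal.ofReal ((2 * (2 * r)) ^ u) *
        volume (Metric.closedBall (0 : EuclideanSpace ℝ (Fin u)) 1) *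
        volume (Metric.closedBall (0 : EuclideanSpace ℝ (Fin u)) ρ)) := by
  set c : ENNReal := ENNReal.ofReal ((2 * (2 * r)) ^ u) *
        volume (Metric.closedBall (0 : EuclideanSpace ℝ (Fin u)) 1) *
        volume (Metric.closedBall (0 : EuclideanSpace ℝ (Fin u)) ρ) with hc
  have h2r : 0 ≤ 2 * r := by linarith
  calc (volume.prod volume) (avgUnion ρ a r m)
      ≤ ∑ k ∈ Finset.range (m + 1), (volume.prod volume) (avgSet ρ a (2 * r) ((k : ℝ) / m)) :=
        measure_biUnion_finset_le _ _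
    _ ≤ ∑ _k ∈ Finset.range (m + 1), c :=
        Finset.sum_le_sum (fun k _ => volume_avgSet ρ a h2r)
    _ = ((m : ENNReal) + 1) * c := by
        rw [Finset.sum_const, Finset.card_range, nsmul_eq_mul]
        push_cast
        rfl

/-- The measure of the pairs in the ball whose segment meets a set of diameter `≤ r`. -/
theorem exists_avg_bound (hu : 1 ≤ u) {ρ : ℝ} (hρ : 0 < ρ) : ∃ C : ℝ, 0 < C ∧
    ∀ (a : EuclideanSpace ℝ (Fin u)) (r : ℝ), 0 < r →
      ∃ T : Set (EuclideanSpace ℝ (Fin u) × EuclideanSpace ℝ (Fin u)), MeasurableSet T ∧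
        (∀ z ∈ Metric.closedBall (0 : EuclideanSpace ℝ (Fin u)) ρ,
          ∀ w ∈ Metric.closedBall (0 : EuclideanSpace ℝ (Fin u)) ρ,
          ∀ x ∈ segment ℝ z w, dist x a ≤ r → (z, w) ∈ T) ∧
        (volume.prod volume) T ≤ ENNReal.ofReal (C * r ^ (u - 1)) := by
  set V : ℝ := (volume (Metric.closedBall (0 : EuclideanSpace ℝ (Fin u)) ρ)).toReal with hV
  set c : ℝ := (volume (Metric.closedBall (0 : EuclideanSpace ℝ (Fin u)) 1)).toReal with hc
  have hVf : volume (Metric.closedBall (0 : EuclideanSpace ℝ (Fin u)) ρ) ≠ ∞ :=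
    measure_closedBall_lt_top.ne
  have hcf : volume (Metric.closedBall (0 : EuclideanSpace ℝ (Fin u)) 1) ≠ ∞ :=
    measure_closedBall_lt_top.ne
  have hV0 : 0 ≤ V := ENNReal.toReal_nonneg
  have hc0 : 0 ≤ c := ENNReal.toReal_nonneg
  refine ⟨4 * ρ * (4 ^ u * c * V) + V * V / ρ ^ (u - 1) + 1, by positivity, fun a r hr => ?_⟩
  rcases le_or_gt r ρ with hrρ | hrρ
  · -- small sets
    set m : ℕ := ⌈2 * ρ / r⌉₊ with hm
    have hm1 : 2 * ρ / r ≤ m := Nat.le_ceil _
    have hm2 : (m : ℝ) < 2 * ρ / r + 1 := Nat.ceil_lt_add_one (by positivity)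
    have h2 : 2 ≤ 2 * ρ / r := by rw [le_div_iff₀ hr]; linarith
    have hmpos : 0 < m := by
      have : (0 : ℝ) < m := by linarith
      exact_mod_cast this
    refine ⟨avgUnion ρ a r m, (isClosed_avgUnion _ _ _ _).measurableSet,
      fun z hz w hw x hx hxa => mem_avgUnion hmpos hr hm1 hz hw hx hxa, ?_⟩
    refine (volume_avgUnion ρ a hr.le m).trans ?_
    have e1 : ((m : ENNReal) + 1) = ENNReal.ofReal ((m : ℝ) + 1) := by
      rw [ENNReal.ofReal_add (by positivity) zero_le_one, ENNReal.ofReal_one,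
        ENNReal.ofReal_natCast]
    have e2 : volume (Metric.closedBall (0 : EuclideanSpace ℝ (Fin u)) 1) = ENNReal.ofReal c :=
      (ENNReal.ofReal_toReal hcf).symm
    have e3 : volume (Metric.closedBall (0 : EuclideanSpace ℝ (Fin u)) ρ) = ENNReal.ofReal V :=
      (ENNReal.ofReal_toReal hVf).symm
    rw [e1, e2, e3, ← ENNReal.ofReal_mul (by positivity), ← ENNReal.ofReal_mul (by positivity),
      ← ENNReal.ofReal_mul (by positivity)]
    apply ENNReal.ofReal_le_ofReal
    have h3 : (m : ℝ) + 1 ≤ 4 * ρ / r := by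
      have : 4 * ρ / r = 2 * ρ / r + 2 * ρ / r := by ring
      rw [this]; linarith
    have h4 : (2 * (2 * r)) ^ u = 4 ^ u * (r * r ^ (u - 1)) := by
      rw [← pow_succ', Nat.sub_add_cancel hu, ← mul_pow]; ring_nf
    calc ((m : ℝ) + 1) * ((2 * (2 * r)) ^ u * c * V)
        ≤ (4 * ρ / r) * ((2 * (2 * r)) ^ u * c * V) := by
          apply mul_le_mul_of_nonneg_right h3 (by positivity)
      _ = 4 * ρ * (4 ^ u * c * V) * r ^ (u - 1) := by
          rw [h4]; field_simp
      _ ≤ (4 * ρ * (4 ^ u * c * V) + V * V / ρ ^ (u - 1) + 1) * r ^ (u - 1) := by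
          apply mul_le_mul_of_nonneg_right _ (by positivity)
          have : 0 ≤ V * V / ρ ^ (u - 1) := by positivity
          linarith
  · -- large sets
    refine ⟨Metric.closedBall (0 : EuclideanSpace ℝ (Fin u)) ρ ×ˢ
      Metric.closedBall (0 : EuclideanSpace ℝ (Fin u)) ρ,
      Metric.isClosed_closedBall.measurableSet.prod Metric.isClosed_closedBall.measurableSet,
      fun z hz w hw _ _ _ => ⟨hz, hw⟩, ?_⟩
    rw [Measure.prod_prod]
    have e3 : volume (Metric.closedBall (0 : EuclideanSpace ℝ (Fin u)) ρ) = ENNReal.ofReal V :=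
      (ENNReal.ofReal_toReal hVf).symm
    rw [e3, ← ENNReal.ofReal_mul (by positivity)]
    apply ENNReal.ofReal_le_ofReal
    have h5 : ρ ^ (u - 1) ≤ r ^ (u - 1) := pow_le_pow_left₀ hρ.le hrρ.le _
    have h6 : V * V ≤ V * V / ρ ^ (u - 1) * r ^ (u - 1) := by
      rw [div_mul_eq_mul_div, le_div_iff₀ (by positivity)]
      exact mul_le_mul_of_nonneg_left h5 (by positivity)
    refine h6.trans (mul_le_mul_of_nonneg_right ?_ (by positivity))
    have : 0 ≤ 4 * ρ * (4 ^ u * c * V) := by positivity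
    linarith

end Measure

/-- Module AVG. -/
theorem specAvg : SpecAvg := by
  classical
  intro u hu ρ hρ
  obtain ⟨C, hC, hT⟩ := exists_avg_bound hu hρ
  refine ⟨C, hC, ?_⟩
  intro N D r hDcl hcov hr hdiam K G H hG hH hlink
  -- a point of every set
  have hcen : ∀ i, ∃ T : Set (EuclideanSpace ℝ (Fin u) × EuclideanSpace ℝ (Fin u)),
      MeasurableSet T ∧
      (∀ z ∈ Metric.closedBall (0 : EuclideanSpace ℝ (Fin u)) ρ,
        ∀ w ∈ Metric.closedBall (0 : EuclideanSpace ℝ (Fin u)) ρ,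
        (D i ∩ segment ℝ z w).Nonempty → (z, w) ∈ T) ∧
      (volume.prod volume) T ≤ ENNReal.ofReal (C * r i ^ (u - 1)) := by
    intro i
    rcases (D i).eq_empty_or_nonempty with he | ⟨a, ha⟩
    · refine ⟨∅, MeasurableSet.empty, ?_, by simp⟩
      intro z _ w _ h
      rw [he, empty_inter] at h
      exact absurd h Set.not_nonempty_empty
    · obtain ⟨T, hTm, hT1, hT2⟩ := hT a (r i) (hr i)
      refine ⟨T, hTm, ?_, hT2⟩
      rintro z hz w hw ⟨x, hxD, hxs⟩
      exact hT1 z hz w hw x hxs (hdiam i x hxD a ha)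
  choose T hTm hT1 hT2 using hcen
  -- the counting function
  set g : EuclideanSpace ℝ (Fin u) × EuclideanSpace ℝ (Fin u) → ENNReal :=
    fun q => ∑ i, (T i).indicator (fun _ => (1 : ENNReal)) q with hg
  have hgm : Measurable g := by
    apply Finset.measurable_fun_sum
    intro i _
    exact measurable_const.indicator (hTm i)
  have hint : ∫⁻ q, g q ∂(volume.prod volume) ≤ ENNReal.ofReal (C * ∑ i, r i ^ (u - 1)) := by
    rw [lintegral_finsetSum _ (fun i _ => measurable_const.indicator (hTm i))]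
    rw [Finset.mul_sum, ENNReal.ofReal_sum_of_nonneg
      (fun i _ => mul_nonneg hC.le (pow_nonneg (hr i).le _))]
    apply Finset.sum_le_sum
    intro i _
    rw [lintegral_indicator_const (hTm i), one_mul]
    exact hT2 i
  have hsub : G ×ˢ H ⊆ {q | (K : ENNReal) ≤ g q} := by
    rintro ⟨z, w⟩ ⟨hz, hw⟩
    have hzB := hG hz
    have hwB := hH hw
    have hseg : segment ℝ z w ⊆ Metric.closedBall (0 : EuclideanSpace ℝ (Fin u)) ρ :=
      (convex_closedBall _ _).segment_subset hzB hwB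
    have hnl := hlink z hz w hw
    have hK : ∀ L ≤ K, ¬ AvgChain D (segment ℝ z w) L z w := by
      rintro L hL ⟨p, c, h0, h1, h2, h3⟩
      exact hnl ⟨L, p, hL, h0, h1, fun i hi => hseg (h2 i hi), fun i hi => ⟨c i, h3 i hi⟩⟩
    have hcard := avgChain_card hDcl (convex_segment z w).isPreconnected (hseg.trans hcov)
      (left_mem_segment ℝ z w) (right_mem_segment ℝ z w) hK
      (Finset.univ.filter (fun i => (z, w) ∈ T i))
      (fun i hi => Finset.mem_filter.2 ⟨Finset.mem_univ _, hT1 i z hzB w hwB hi⟩)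
    show (K : ENNReal) ≤ g (z, w)
    have hgz : g (z, w) = ((Finset.univ.filter (fun i => (z, w) ∈ T i)).card : ENNReal) := by
      rw [hg]
      simp only [indicator_apply]
      rw [Finset.sum_boole]
    rw [hgz]
    exact_mod_cast hcard.le
  calc (K : ENNReal) * volume G * volume H
      = (K : ENNReal) * (volume.prod volume) (G ×ˢ H) := by rw [Measure.prod_prod, mul_assoc]
    _ ≤ (K : ENNReal) * (volume.prod volume) {q | (K : ENNReal) ≤ g q} := by
        gcongr
    _ ≤ ∫⁻ q, g q ∂(volume.prod volume) := mul_meas_ge_le_lintegral hgm _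
    _ ≤ _ := hint

end Pool.Agent.Lib.MP610fe3.H6
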