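import Pool.Agent.Lib.MP_610fe3_an.H6E.Pinch
import Pool.Agent.Lib.MP_610fe3_an.H6.Gps

/-!
# Cheap arcs from the topological entropy
-/

open Set Filter Function MeasureTheory
open scoped Topology

namespace Pool.Agent.Lib.MP610fe3.H6

open Cf

universe v

variable {M : Type v} [MetricSpace M] {f : M ≃ₜ M} {u : ℕ}
  {φ : M → EuclideanSpace ℝ (Fin u) → M}

/-- Points of an unstable plaque which stay close up to time `m` are in a plaque at time `m`. -/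
theorem wl_of_bowen {ε₃ : ℝ} {x z : M} (hz : z ∈ Wl f.symm ε₃ x) (m : ℕ)
    (hm : ∀ k ≤ m, dist (f^[k] z) (f^[k] x) ≤ ε₃) : f^[m] z ∈ Wl f.symm ε₃ (f^[m] x) := by
  intro k
  rcases le_total k m with hk | hk
  · rw [Cf.symm_iterate_iterate_of_le f hk, Cf.symm_iterate_iterate_of_le f hk]
    exact hm _ (Nat.sub_le _ _)
  · obtain ⟨j, rfl⟩ := Nat.exists_eq_add_of_le hk
    rw [add_comm m j, iterate_add_apply, iterate_add_apply, Cf.symm_iterate_iterate,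
      Cf.symm_iterate_iterate]
    exact hz j

/-- Covers by `exp (h m)` sets which stay small up to time `m` give cheap covers of plaques. -/
theorem cost_of_cover {ρ₀ L ε₀ C α h b : ℝ} (hφ : UPlaq f u ρ₀ L φ) (hα : 0 ≤ α)
    (hD : Dec f.symm ε₀ C (Real.exp (-α))) (hbh : h - ((u : ℝ) - 1) * α ≤ b)
    (hcov : ∀ ε : ℝ, 0 < ε → ∃ Λ : ℝ, ∀ n : ℕ, ∃ (N : ℕ) (D : Fin N → Set M),
      (N : ℝ) ≤ Λ * Real.exp (h * n) ∧ (∀ i, IsClosed (D i)) ∧ (⋃ i, D i) = univ ∧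
      ∀ i, ∀ y ∈ D i, ∀ y' ∈ D i, ∀ k ≤ n, dist (f^[k] y) (f^[k] y') ≤ ε)
    (ε₃ : ℝ) (hε₃ : 0 < ε₃) : ∃ ρ₁ : ℝ, 0 < ρ₁ ∧ ∀ ρ : ℝ, 0 < ρ → ρ ≤ ρ₁ →
      ∃ Λ : ℝ, Cost f u φ univ ε₃ ρ b Λ := by
  have hC := hD.one_le
  have hL := hφ.one_le
  set ε₅ : ℝ := min ε₃ ε₀ with hε₅
  have hε₅0 : 0 < ε₅ := lt_min hε₃ hD.ε_pos
  obtain ⟨Λ, hΛ⟩ := hcov ε₅ hε₅0
  obtain ⟨r₁, hr₁, hr₁ρ, hmem⟩ := hφ.mem (ε₅ / 2) (by positivity)
  refine ⟨r₁, hr₁, fun ρ hρ hρr => ?_⟩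
  have hpair : ∀ x, ∀ a ∈ Metric.closedBall 0 ρ, ∀ a' ∈ Metric.closedBall 0 ρ,
      φ x a' ∈ Wl f.symm ε₅ (φ x a) := by
    intro x a ha a' ha'
    have := Wl_trans (Wl_comm (hmem x a (Metric.closedBall_subset_closedBall hρr ha)))
      (hmem x a' (Metric.closedBall_subset_closedBall hρr ha'))
    rwa [add_halves] at this
  refine ⟨max Λ 0 * (L * (C * ε₅)) ^ (u - 1), fun m x _ => ?_⟩
  obtain ⟨N, D, hN, hDc, hDu, hDm⟩ := hΛ m
  have hexp0 : 0 < Real.exp (-α) ^ m := by positivity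
  refine ⟨N, fun i => Metric.closedBall 0 ρ ∩ φ x ⁻¹' D i, fun _ => L * (C * Real.exp (-α) ^ m * ε₅),
    fun i => ?_, ?_, fun i => by positivity, fun i a ha b hb => ?_, fun i a ha b hb k hk => ?_, ?_⟩
  · exact ((hφ.continuousOn x).mono
      (Metric.closedBall_subset_closedBall (hρr.trans hr₁ρ))).preimage_isClosed_of_isClosed
      Metric.isClosed_closedBall (hDc i)
  · intro a ha
    have : φ x a ∈ ⋃ i, D i := by rw [hDu]; exact mem_univ _
    obtain ⟨i, hi⟩ := mem_iUnion.1 this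
    exact mem_iUnion.2 ⟨i, ha, hi⟩
  · have h1 := wl_of_bowen (hpair x b hb.1 a ha.1) m
      (fun k hk => hDm i _ ha.2 _ hb.2 k hk)
    have h2 := hD.dec _ _ (Wl_mono (min_le_right _ _) h1) m
    rw [Cf.symm_iterate_iterate, Cf.symm_iterate_iterate] at h2
    have h3 := hφ.lower x a (Metric.closedBall_subset_closedBall (hρr.trans hr₁ρ) ha.1) b
      (Metric.closedBall_subset_closedBall (hρr.trans hr₁ρ) hb.1)
    have h4 := Wl_dist h1
    refine h3.trans ?_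
    have h5 : dist (φ x a) (φ x b) ≤ C * Real.exp (-α) ^ m * ε₅ := by
      refine h2.trans ?_
      gcongr
    exact mul_le_mul_of_nonneg_left h5 (by linarith)
  · exact (hDm i _ ha.2 _ hb.2 k hk).trans (min_le_left _ _)
  · rw [Finset.sum_const, Finset.card_univ, Fintype.card_fin, nsmul_eq_mul]
    have e1 : (L * (C * Real.exp (-α) ^ m * ε₅)) ^ (u - 1) =
        (L * (C * ε₅)) ^ (u - 1) * Real.exp (-(α * ((u - 1 : ℕ) : ℝ) * m)) := by
      have : L * (C * Real.exp (-α) ^ m * ε₅) = (L * (C * ε₅)) * Real.exp (-α) ^ m := by ring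
      rw [this, mul_pow, ← Real.exp_nat_mul, ← Real.exp_nat_mul]
      congr 2
      ring
    rw [e1]
    have e2 : Real.exp (h * m) * Real.exp (-(α * ((u - 1 : ℕ) : ℝ) * m)) ≤ Real.exp (b * m) := by
      rw [← Real.exp_add]
      apply Real.exp_le_exp.2
      have h1 : (u : ℝ) - 1 ≤ ((u - 1 : ℕ) : ℝ) := by
        rcases Nat.eq_zero_or_pos u with h0 | h0
        · subst h0
          simp
        · rw [Nat.cast_sub h0, Nat.cast_one]
      have h2 : h - ((u - 1 : ℕ) : ℝ) * α ≤ b := by nlinarith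
      have h3 : (0 : ℝ) ≤ m := Nat.cast_nonneg m
      have h4 : (h - ((u - 1 : ℕ) : ℝ) * α) * m ≤ b * m := mul_le_mul_of_nonneg_right h2 h3
      linarith
    have h6 : (N : ℝ) ≤ max Λ 0 * Real.exp (h * m) := hN.trans (by
      gcongr
      exact le_max_left _ _)
    calc (N : ℝ) * ((L * (C * ε₅)) ^ (u - 1) * Real.exp (-(α * ((u - 1 : ℕ) : ℝ) * m)))
        ≤ max Λ 0 * Real.exp (h * m) *
          ((L * (C * ε₅)) ^ (u - 1) * Real.exp (-(α * ((u - 1 : ℕ) : ℝ) * m))) := by gcongr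
      _ = max Λ 0 * (L * (C * ε₅)) ^ (u - 1) *
          (Real.exp (h * m) * Real.exp (-(α * ((u - 1 : ℕ) : ℝ) * m))) := by ring
      _ ≤ max Λ 0 * (L * (C * ε₅)) ^ (u - 1) * Real.exp (b * m) := by gcongr

/-- The space is covered by `Λ exp (h n)` closed sets which stay small up to time `n`. -/
def HasCovers (f : M → M) (h : ℝ) : Prop :=
  ∀ ε : ℝ, 0 < ε → ∃ Λ : ℝ, ∀ n : ℕ, ∃ (N : ℕ) (D : Fin N → Set M),
    (N : ℝ) ≤ Λ * Real.exp (h * n) ∧ (∀ i, IsClosed (D i)) ∧ (⋃ i, D i) = univ ∧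
    ∀ i, ∀ y ∈ D i, ∀ y' ∈ D i, ∀ k ≤ n, dist (f^[k] y) (f^[k] y') ≤ ε

theorem HasCovers.symm {h : ℝ} (H : HasCovers f h) : HasCovers f.symm h := by
  intro ε hε
  obtain ⟨Λ, HΛ⟩ := H ε hε
  refine ⟨Λ, fun n => ?_⟩
  obtain ⟨N, D, hN, hDc, hDu, hDm⟩ := HΛ n
  refine ⟨N, fun i => f.symm^[n] ⁻¹' D i, hN,
    fun i => (hDc i).preimage (f.symm.continuous.iterate n), ?_, fun i y hy y' hy' k hk => ?_⟩
  · rw [← preimage_iUnion, hDu, preimage_univ]
  · have h1 := hDm i _ hy _ hy' (n - k) (Nat.sub_le _ _)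
    rwa [Cf.iterate_symm_iterate_of_le f (Nat.sub_le _ _),
      Cf.iterate_symm_iterate_of_le f (Nat.sub_le _ _), Nat.sub_sub_self hk] at h1

theorem hasCovers_of_entropy [CompactSpace M] (hEnt : SpecEnt.{v}) {T : M → M}
    (hT : Continuous T) {h : ℝ} (hh : Dynamics.coverEntropy T (univ : Set M) < (h : EReal)) :
    HasCovers T h := fun ε hε => hEnt M T hT h hh ε hε

/-- **Cheap arcs from the entropy.** -/
theorem reachExp_of_covers [CompactSpace M] (hAvg : SpecAvg)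
    {ρ₀ L ε₀ C α h b ε : ℝ} (hφ : UPlaq f u ρ₀ L φ) (hα : 0 ≤ α)
    (hD : Dec f.symm ε₀ C (Real.exp (-α))) (hε : 0 < ε) (hb : 0 < b)
    (hbh : h - ((u : ℝ) - 1) * α ≤ b) (hh : HasCovers f h) : ReachExp f ε b := by
  obtain ⟨Λ', ε₄, hΛ', hε₄, H⟩ := reach_of_cost hAvg (P := univ) (fun _ _ => mem_univ _) hD hφ hε hb
    (cost_of_cover hφ hα hD hbh hh)
  exact ⟨Λ', ε₄, hΛ', hε₄, fun m p p' hp' => H m p (mem_univ _) p' (mem_univ _) hp'⟩

/-- **Cheap arcs from an upper bound of the growth.** -/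
theorem reachExp_of_slow {ρ ε₁ Λ b ε ε₀ C θ : ℝ} (hρ : 0 < ρ) (hΛ : 0 ≤ Λ) (hε : 0 < ε)
    (hb : 0 ≤ b) (hε₁ : ε₁ ≤ ε₀) (hD : Dec f.symm ε₀ C θ)
    (h : Slow f.symm ρ ε₁ Λ (Real.exp b)) : ReachExp f ε b := by
  refine ⟨Λ / ε + 1, ρ, by positivity, hρ, fun m p p' hp' => ?_⟩
  obtain ⟨γ, hγc, h0, h1, hmut, hgrow⟩ := h p p' hp'
  have hexp : 1 ≤ Real.exp (b * m) := Real.one_le_exp (by positivity)
  have hexp' : Real.exp b ^ m = Real.exp (b * m) := by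
    rw [← Real.exp_nat_mul, mul_comm]
  have hgrow' : ∀ t ∈ Icc (0 : ℝ) 1, ∀ t' ∈ Icc (0 : ℝ) 1,
      dist (f^[m] (γ t)) (f^[m] (γ t')) ≤ Λ * Real.exp (b * m) * |t - t'| := by
    intro t ht t' ht'
    have := hgrow m t ht t' ht'
    rw [hexp'] at this
    exact this
  obtain ⟨K, hK⟩ : ∃ K : ℕ, K = ⌊Λ * Real.exp (b * m) / ε⌋₊ + 1 := ⟨_, rfl⟩
  have hK1 : Λ * Real.exp (b * m) / ε < K := by
    rw [hK]
    push_cast
    exact Nat.lt_floor_add_one _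
  have hK2 : (K : ℝ) ≤ (Λ / ε + 1) * Real.exp (b * m) := by
    have h2 := Nat.floor_le (show 0 ≤ Λ * Real.exp (b * m) / ε by positivity)
    rw [hK]
    push_cast
    have h3 : Λ * Real.exp (b * m) / ε = Λ / ε * Real.exp (b * m) := by ring
    rw [h3] at h2 ⊢
    linarith
  have hKpos : (0 : ℝ) < K := lt_of_le_of_lt (by positivity) hK1
  refine ⟨K, hK2, γ, ⟨hγc, fun ε' hε' => ?_⟩, h0, h1, ?_⟩
  · obtain ⟨N, hN⟩ := exists_pow_le (C := C) (ε := ε₀) hD.l_pos hD.l_lt hε'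
    refine ⟨N, fun n hn t ht t' ht' => ?_⟩
    have h2 := hD.dec _ _ (Wl_mono hε₁ (hmut t ht t' ht')) n
    refine h2.trans (le_trans ?_ hN)
    have h3 : θ ^ n ≤ θ ^ N := pow_le_pow_of_le_one hD.l_pos.le hD.l_lt.le hn
    have h4 : 0 ≤ θ ^ n := pow_nonneg hD.l_pos.le _
    have h5 : 0 ≤ θ ^ N := pow_nonneg hD.l_pos.le _
    have h6 : dist (γ t) (γ t') ≤ ε₀ := (Wl_dist (hmut t ht t' ht')).trans hε₁
    have h7 := hD.one_le
    gcongr
  · refine ⟨fun i => min ((i : ℝ) / K) 1, fun i j hij => ?_, by simp, ?_,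
      fun i hi t ht t' ht' => ?_⟩
    · refine min_le_min ?_ le_rfl
      have : (i : ℝ) ≤ j := by exact_mod_cast hij
      gcongr
    · simp only [div_self hKpos.ne', min_self]
    · have hi1 : ((i : ℝ) + 1) ≤ K := by exact_mod_cast hi
      have e1 : min ((i : ℝ) / K) 1 = (i : ℝ) / K := by
        apply min_eq_left
        rw [div_le_one hKpos]
        linarith
      have e2 : min (((i + 1 : ℕ) : ℝ) / K) 1 = ((i : ℝ) + 1) / K := by
        push_cast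
        apply min_eq_left
        rw [div_le_one hKpos]
        exact hi1
      simp only [e1, e2] at ht ht'
      have h01 : ∀ {t : ℝ}, t ∈ Icc ((i : ℝ) / K) (((i : ℝ) + 1) / K) → t ∈ Icc (0 : ℝ) 1 := by
        intro t ht
        refine ⟨le_trans (by positivity) ht.1, ht.2.trans ?_⟩
        rw [div_le_one hKpos]
        exact hi1
      refine (hgrow' t (h01 ht) t' (h01 ht')).trans ?_
      have h2 : |t - t'| ≤ 1 / K := by
        have h3 : ((i : ℝ) + 1) / K - (i : ℝ) / K = 1 / K := by ring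
        rw [abs_le]
        constructor <;> linarith [ht.1, ht.2, ht'.1, ht'.2]
      calc Λ * Real.exp (b * m) * |t - t'| ≤ Λ * Real.exp (b * m) * (1 / K) := by gcongr
        _ = Λ * Real.exp (b * m) / ε / K * ε := by field_simp
        _ ≤ 1 * ε := by
          gcongr
          rw [div_le_one hKpos]
          exact hK1.le
        _ = ε := one_mul ε

end Pool.Agent.Lib.MP610fe3.H6
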