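import Pool.Agent.Lib.MP_610fe3_an.H6E.Spec

/-!
# Covers by Bowen balls from the topological entropy
-/

open Set Filter Function MeasureTheory
open scoped Topology Uniformity

namespace Pool.Agent.Lib.MP610fe3.H6

universe v

/-- Module ENT, unfolded. -/
theorem ent_aux (M : Type v) [MetricSpace M] [CompactSpace M] (T : M → M) (hT : Continuous T)
    (h : ℝ) (hh : Dynamics.coverEntropy T (univ : Set M) < (h : EReal)) (ε : ℝ) (hε : 0 < ε) :
    ∃ Λ : ℝ, ∀ n : ℕ, ∃ (N : ℕ) (D : Fin N → Set M), (N : ℝ) ≤ Λ * Real.exp (h * n) ∧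
      (∀ i, IsClosed (D i)) ∧ (⋃ i, D i) = univ ∧
      ∀ i, ∀ y ∈ D i, ∀ y' ∈ D i, ∀ k ≤ n, dist (T^[k] y) (T^[k] y') ≤ ε := by
  classical
  set U : SetRel M M := {p : M × M | dist p.1 p.2 < ε / 2} with hU
  have hUu : U ∈ 𝓤 M := Metric.dist_mem_uniformity (half_pos hε)
  have hent : Dynamics.coverEntropyEntourage T (univ : Set M) U < (h : EReal) :=
    (Dynamics.coverEntropyEntourage_le_coverEntropy T univ hUu).trans_lt hh
  have hev : ∀ᶠ n : ℕ in atTop,
      ((Dynamics.coverMincard T (univ : Set M) U n : ℕ∞) : ENNReal) ≤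
        EReal.exp ((h : EReal) * n) :=
    (ExpGrowth.expGrowthSup_le_iff.1 (le_refl (Dynamics.coverEntropyEntourage T univ U))) h hent
  obtain ⟨n₀, hn₀⟩ := eventually_atTop.1 hev
  -- finite covers at every time
  have hfin : ∀ n : ℕ, ∃ s : Finset M, Dynamics.IsDynCoverOf T univ U n (s : Set M) ∧
      (s.card : ℕ∞) = Dynamics.coverMincard T univ U n := fun n =>
    (Dynamics.coverMincard_finite_iff T univ U n).1
      (Dynamics.coverMincard_finite_of_isCompact_invariant isCompact_univ
        (mapsTo_univ _ _) hUu n)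
  choose s hs hcard using hfin
  have hlarge : ∀ n, n₀ ≤ n → ((s n).card : ℝ) ≤ Real.exp (h * n) := by
    intro n hn
    have h1 := hn₀ n hn
    rw [← hcard n] at h1
    have h2 : ((h : EReal) * (n : EReal)) = ((h * n : ℝ) : EReal) := by
      push_cast
      rfl
    rw [h2, EReal.exp_coe] at h1
    have h3 : (((s n).card : ℕ∞) : ENNReal) = ENNReal.ofReal ((s n).card : ℝ) := by
      simp
    rw [h3] at h1
    exact (ENNReal.ofReal_le_ofReal_iff (Real.exp_pos _).le).1 h1
  set Λ : ℝ := Real.exp h + ∑ j ∈ Finset.range n₀, ((s (j + 1)).card : ℝ) * Real.exp (-(h * j))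
    with hΛ
  have hterm : ∀ j, 0 ≤ ((s (j + 1)).card : ℝ) * Real.exp (-(h * j)) := fun j => by positivity
  refine ⟨Λ, fun n => ?_⟩
  set t := s (n + 1) with ht
  have hcardle : (t.card : ℝ) ≤ Λ * Real.exp (h * n) := by
    rcases le_or_gt n₀ n with hn | hn
    · have h1 := hlarge (n + 1) (by omega)
      calc (t.card : ℝ) ≤ Real.exp (h * ((n + 1 : ℕ) : ℝ)) := h1
        _ = Real.exp h * Real.exp (h * n) := by
            rw [← Real.exp_add]
            congr 1
            push_cast
            ring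
        _ ≤ Λ * Real.exp (h * n) := by
            refine mul_le_mul_of_nonneg_right ?_ (Real.exp_pos _).le
            rw [hΛ]
            have := Finset.sum_nonneg fun j (_ : j ∈ Finset.range n₀) => hterm j
            linarith
    · have h1 : (t.card : ℝ) * Real.exp (-(h * n)) ≤ Λ := by
        have := Finset.single_le_sum (fun j (_ : j ∈ Finset.range n₀) => hterm j)
          (Finset.mem_range.2 hn)
        rw [hΛ]
        have h2 := (Real.exp_pos h).le
        linarith
      have h3 : Real.exp (-(h * n)) * Real.exp (h * n) = 1 := by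
        rw [← Real.exp_add, neg_add_cancel, Real.exp_zero]
      calc (t.card : ℝ) = (t.card : ℝ) * Real.exp (-(h * n)) * Real.exp (h * n) := by
            rw [mul_assoc, h3, mul_one]
        _ ≤ Λ * Real.exp (h * n) := mul_le_mul_of_nonneg_right h1 (Real.exp_pos _).le
  refine ⟨t.card, fun i => {y | ∀ k ≤ n, dist (T^[k] y) (T^[k] (t.equivFin.symm i : M)) ≤ ε / 2},
    hcardle, ?_, ?_, ?_⟩
  · intro i
    have e : {y | ∀ k ≤ n, dist (T^[k] y) (T^[k] (t.equivFin.symm i : M)) ≤ ε / 2} =
        ⋂ k : ℕ, ⋂ _ : k ≤ n, {y | dist (T^[k] y) (T^[k] (t.equivFin.symm i : M)) ≤ ε / 2} := by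
      ext y
      simp
    change IsClosed {y | ∀ k ≤ n, dist (T^[k] y) (T^[k] (t.equivFin.symm i : M)) ≤ ε / 2}
    rw [e]
    refine isClosed_iInter fun k => isClosed_iInter fun _ => ?_
    exact isClosed_le ((hT.iterate k).dist continuous_const) continuous_const
  · refine eq_univ_of_forall fun y => mem_iUnion.2 ?_
    obtain ⟨x, hx, hxy⟩ := hs (n + 1) (mem_univ y)
    refine ⟨t.equivFin ⟨x, hx⟩, fun k hk => ?_⟩
    have h1 : (y, x) ∈ Dynamics.dynEntourage T U (n + 1) := hxy
    have h2 := Dynamics.mem_dynEntourage.1 h1 k (by omega)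
    have h3 : dist (T^[k] y) (T^[k] x) < ε / 2 := h2
    simpa using h3.le
  · intro i y hy y' hy' k hk
    have h1 := hy k hk
    have h2 := hy' k hk
    calc dist (T^[k] y) (T^[k] y') ≤ dist (T^[k] y) (T^[k] (t.equivFin.symm i : M)) +
        dist (T^[k] y') (T^[k] (t.equivFin.symm i : M)) := dist_triangle_right _ _ _
      _ ≤ ε := by linarith

theorem specEnt : SpecEnt.{v} := fun M _ _ T hT h hh ε hε => ent_aux M T hT h hh ε hε

end Pool.Agent.Lib.MP610fe3.H6
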