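import Pool.Agent.Lib.MP_610fe3_an.H6E.Charts
import Pool.Agent.Lib.MP_610fe3_an.H6E.Covers
import Pool.Agent.Lib.MP_610fe3_an.H6E.Avg
import Pool.Agent.Lib.MP_610fe3_an.H6E.Ent
import Pool.Agent.Lib.MP_610fe3_an.H6.Main

/-!
# Growth and entropy pinching: the theorem for splittings and for manifolds
-/

open Set Filter Function Bundle
open scoped Manifold ContDiff Topology

namespace Pool.Agent.Lib.MP610fe3.H6

open Cf

universe v

section Abstract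

variable {M : Type v} {W : Type*} [MetricSpace M] [CompactSpace M] [NormedAddCommGroup W]
  [InnerProductSpace ℝ W] [FiniteDimensional ℝ W] {E : Emb M W} {f : M ≃ₜ M}

/-- The exponents of one side. -/
theorem side_exp (s : Split E f) (hs : s.Hyperbolic) {d : ℕ}
    (hd : ∀ x, Module.finrank ℝ ((s.S x).range) = d) {C₀ χ b δ : ℝ} (hC₀ : 0 ≤ C₀)
    (hδ : 0 < δ) (hδχ : δ < χ)
    (h1 : ∀ (k : ℕ) (x : M) (w : W),
      ‖iterD s.D f k x (s.S x w)‖ ≤ C₀ * Real.exp (-χ) ^ k * ‖w‖)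
    (hb : (∀ (k : ℕ) (x : M) (w : W),
      ‖iterD s.Di f.symm k x (s.S x w)‖ ≤ C₀ * Real.exp b ^ k * ‖w‖) ∨
      ∀ h : ℝ, b + ((d : ℝ) - 1) * χ < h → HasCovers f h) :
    ∃ ε₀ C : ℝ, Dec f ε₀ C (Real.exp (-(χ - δ))) ∧
      ∀ ε : ℝ, 0 < ε → ReachExp f.symm ε (max b χ + (d + 1) * δ) := by
  have hχ : 0 < χ := hδ.trans hδχ
  obtain ⟨ε₀, C, hD⟩ := exists_dec_rate s hs (C₀ := C₀) (m := Real.exp (-χ))
    (l := Real.exp (-(χ - δ))) (Real.exp_pos _) (Real.exp_lt_exp.2 (by linarith))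
    (by rw [Real.exp_lt_one_iff]; linarith) h1
  refine ⟨ε₀, C, hD, fun ε hε => ?_⟩
  have hdδ : 0 ≤ (d : ℝ) * δ := by positivity
  have hbm : b ≤ max b χ := le_max_left _ _
  have hχm : χ ≤ max b χ := le_max_right _ _
  rcases hb with hb | hb
  · obtain ⟨ρ, Λ, hρ, hΛ, hS⟩ := exists_slow s hs (κ := Real.exp b) hC₀ (Real.exp_pos _).le hb
      (ε₁ := ε₀) hD.ε_pos
    have hS' : Slow f ρ ε₀ Λ (Real.exp (max b χ)) := by
      intro x y hy
      obtain ⟨γ, g1, g2, g3, g4, g5⟩ := hS x y hy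
      refine ⟨γ, g1, g2, g3, g4, fun n t ht t' ht' => (g5 n t ht t' ht').trans ?_⟩
      have : Real.exp b ^ n ≤ Real.exp (max b χ) ^ n :=
        pow_le_pow_left₀ (Real.exp_pos _).le (Real.exp_le_exp.2 hbm) n
      gcongr
    exact (reachExp_of_slow (f := f.symm) hρ hΛ hε (hχ.le.trans hχm) le_rfl hD hS').mono
      (by nlinarith)
  · obtain ⟨ρ, Λ, φ, hφ⟩ := exists_uplaq s hs hd
    refine reachExp_of_covers (f := f.symm) specAvg hφ (α := χ - δ)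
      (h := b + ((d : ℝ) - 1) * χ + δ) (by linarith) hD hε (by nlinarith) ?_
      (hb _ (by linarith)).symm
    nlinarith

/-- **Growth and entropy pinching, abstract form.** -/
theorem split_noTrap (s : Split E f) (hs : s.Hyperbolic) {ds du : ℕ}
    (hds : ∀ x, Module.finrank ℝ ((s.S x).range) = ds)
    (hdu : ∀ x, Module.finrank ℝ ((s.U x).range) = du) {C₀ χs χu bs bu : ℝ} (hC₀ : 0 ≤ C₀)
    (hχs : 0 < χs) (hχu : 0 < χu)
    (h1 : ∀ (k : ℕ) (x : M) (w : W),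
      ‖iterD s.D f k x (s.S x w)‖ ≤ C₀ * Real.exp (-χs) ^ k * ‖w‖)
    (h2 : ∀ (k : ℕ) (x : M) (w : W),
      ‖iterD s.Di f.symm k x (s.U x w)‖ ≤ C₀ * Real.exp (-χu) ^ k * ‖w‖)
    (hbs : (∀ (k : ℕ) (x : M) (w : W),
      ‖iterD s.Di f.symm k x (s.S x w)‖ ≤ C₀ * Real.exp bs ^ k * ‖w‖) ∨
      ∀ h : ℝ, bs + ((ds : ℝ) - 1) * χs < h → HasCovers f h)
    (hbu : (∀ (k : ℕ) (x : M) (w : W),
      ‖iterD s.D f k x (s.U x w)‖ ≤ C₀ * Real.exp bu ^ k * ‖w‖) ∨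
      ∀ h : ℝ, bu + ((du : ℝ) - 1) * χu < h → HasCovers f h)
    (hpinch : (bu - χu) * (bs - χs) < χu * χs) {U : Set M} (hU : IsOpen U)
    (htrap : f '' closure U ⊆ U) {q : M} (hq : q ∈ frontier U) : False := by
  have hpinch' : (max bu χu - χu) * (max bs χs - χs) < χu * χs := by
    rcases le_total bu χu with h3 | h3
    · rw [max_eq_right h3, sub_self, zero_mul]
      positivity
    · rcases le_total bs χs with h4 | h4
      · rw [max_eq_right h4, sub_self, mul_zero]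
        positivity
      · rw [max_eq_left h3, max_eq_left h4]
        exact hpinch
  -- the choice of `δ`
  obtain ⟨δ, hδ, hδs, hδu, hδp⟩ : ∃ δ : ℝ, 0 < δ ∧ δ < χs ∧ δ < χu ∧
      (max bu χu + (du + 1) * δ - (χu - δ)) * (max bs χs + (ds + 1) * δ - (χs - δ)) <
        (χu - δ) * (χs - δ) := by
    have hc1 : ContinuousAt (fun δ : ℝ => (max bu χu + (du + 1) * δ - (χu - δ)) *
        (max bs χs + (ds + 1) * δ - (χs - δ))) 0 := by fun_prop
    have hc2 : ContinuousAt (fun δ : ℝ => (χu - δ) * (χs - δ)) 0 := by fun_prop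
    have h3 : ∀ᶠ δ in 𝓝 (0 : ℝ), (max bu χu + (du + 1) * δ - (χu - δ)) *
        (max bs χs + (ds + 1) * δ - (χs - δ)) < (χu - δ) * (χs - δ) := by
      refine hc1.eventually_lt hc2 ?_
      simp only [mul_zero, add_zero, sub_zero]
      exact hpinch'
    have h4 : ∀ᶠ δ in 𝓝 (0 : ℝ), δ < χs := gt_mem_nhds hχs
    have h5 : ∀ᶠ δ in 𝓝 (0 : ℝ), δ < χu := gt_mem_nhds hχu
    have h6 : ∀ᶠ δ in 𝓝[>] (0 : ℝ), (δ < χs ∧ δ < χu) ∧
        (max bu χu + (du + 1) * δ - (χu - δ)) *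
        (max bs χs + (ds + 1) * δ - (χs - δ)) < (χu - δ) * (χs - δ) :=
      nhdsWithin_le_nhds ((h4.and h5).and h3)
    obtain ⟨δ, h7, h8⟩ := (h6.and self_mem_nhdsWithin).exists
    exact ⟨δ, h8, h7.1.1, h7.1.2, h7.2⟩
  obtain ⟨ε₁, C₁, hD₁, hR₁⟩ := side_exp s hs hds hC₀ hδ hδs h1 hbs
  obtain ⟨ε₂, C₂, hD₂, hR₂⟩ := side_exp s.swap hs.swap hdu hC₀ hδ hδu h2
    (hbu.imp id fun h h' hh' => (h h' hh').symm)
  set ε₀ : ℝ := min ε₁ ε₂ with hε₀
  have hε₀0 : 0 < ε₀ := lt_min hD₁.ε_pos hD₂.ε_pos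
  set C : ℝ := max C₁ C₂ with hC
  have hC1 : 1 ≤ C := hD₁.one_le.trans (le_max_left _ _)
  have hD : Dec f ε₀ C (Real.exp (-(χs - δ))) :=
    hD₁.mono hε₀0 (min_le_left _ _) (le_max_left _ _) le_rfl hD₁.l_lt
  have hD' : Dec f.symm ε₀ C (Real.exp (-(χu - δ))) :=
    hD₂.mono hε₀0 (min_le_right _ _) (le_max_right _ _) le_rfl hD₂.l_lt
  obtain ⟨εB, CB, hBr⟩ := br M W E f s hs
  set ε : ℝ := min εB (ε₀ / (6 * C)) with hε
  have hε0 : 0 < ε := by
    have := hBr.ε_pos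
    positivity
  have hεlt : 3 * C * ε < ε₀ := by
    have h5 : ε ≤ ε₀ / (6 * C) := min_le_right _ _
    have h6 : 3 * C * ε ≤ 3 * C * (ε₀ / (6 * C)) := by gcongr
    have h7 : 3 * C * (ε₀ / (6 * C)) = ε₀ / 2 := by
      field_simp
      norm_num
    linarith
  have hfin := reach_pinching (f := f) (α₁ := χu - δ) (β₁ := χs - δ)
    (bu := max bu χu + (du + 1) * δ) (bs := max bs χs + (ds + 1) * δ) (by linarith)
    (by linarith) hD hD' hε0 hεlt (hBr.mono hε0 (min_le_left _ _) le_rfl)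
    (by
      have h3 := le_max_right bu χu
      have h4 : 0 ≤ ((du : ℝ) + 1) * δ := by positivity
      linarith)
    (by
      have h3 := le_max_right bs χs
      have h4 : 0 ≤ ((ds : ℝ) + 1) * δ := by positivity
      linarith) (hR₂ ε hε0) (hR₁ ε hε0) hU htrap hq
  linarith

end Abstract

end Pool.Agent.Lib.MP610fe3.H6
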