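import Pool.Agent.Lib.MP_610fe3_an.H6E.Reach
import Pool.Agent.Lib.MP_610fe3_an.Cf.Crd
import Pool.Agent.Lib.MP_610fe3_an.Cf.Dec

/-!
# Uniform parametrizations of stable plaques
-/

open Set Filter Function MeasureTheory
open scoped Topology

namespace Pool.Agent.Lib.MP610fe3.H6

open Cf

variable {M W : Type*} [MetricSpace M] [CompactSpace M] [NormedAddCommGroup W]
  [InnerProductSpace ℝ W] [FiniteDimensional ℝ W] {E : Emb M W} {f : M ≃ₜ M}

/-- The stable plaques (which are the unstable plaques of the inverse) have uniform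
parametrizations. -/
theorem exists_uplaq (s : Split E f) (hs : s.Hyperbolic) {u : ℕ}
    (hrank : ∀ x, Module.finrank ℝ ((s.S x).range) = u) :
    ∃ (ρ Λ : ℝ) (φ : M → EuclideanSpace ℝ (Fin u) → M), UPlaq f.symm u ρ Λ φ := by
  classical
  obtain ⟨ε₁, C, hcrd⟩ := specCrd M W E f s hs
  obtain ⟨εD, CD, l, hD⟩ := exists_dec s hs
  obtain ⟨K, hK1, hK⟩ := s.exists_bdd
  have hC := hcrd.one_le
  have hCD := hD.one_le
  set ε : ℝ := min ε₁ εD with hε
  have hε0 : 0 < ε := lt_min hcrd.ε_pos hD.ε_pos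
  obtain ⟨r, hr, hsurj⟩ := hcrd.surj ε hε0
  -- orthonormal frames
  have hθ : ∀ x, ∃ θ : EuclideanSpace ℝ (Fin u) →ₗᵢ[ℝ] W,
      (∀ w, s.S x (θ w) = θ w) ∧ ∀ w, ∃ v, θ v = s.S x w := by
    intro x
    let b := (stdOrthonormalBasis ℝ ((s.S x).range)).reindex (finCongr (hrank x))
    refine ⟨(s.S x).range.subtypeₗᵢ.comp b.repr.symm.toLinearIsometry, fun w => ?_, fun w => ?_⟩
    · obtain ⟨y, hy⟩ := (b.repr.symm w).2
      change s.S x ((b.repr.symm w : (s.S x).range) : W) = ((b.repr.symm w : (s.S x).range) : W)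
      rw [← hy]
      exact s.SS_apply x y
    · refine ⟨b.repr ⟨s.S x w, ⟨w, rfl⟩⟩, ?_⟩
      change ((b.repr.symm (b.repr ⟨s.S x w, ⟨w, rfl⟩⟩) : (s.S x).range) : W) = _
      rw [LinearIsometryEquiv.symm_apply_apply]
  choose θ hθS hθr using hθ
  -- the parametrization
  have hφ : ∀ x, ∀ a : EuclideanSpace ℝ (Fin u), ∃ z : M, ‖a‖ ≤ r →
      z ∈ Wl f ε x ∧ s.S x (E.e z - E.e x) = θ x a := by
    intro x a
    by_cases ha : ‖a‖ ≤ r
    · obtain ⟨z, hz, h⟩ := hsurj x (θ x a) (hθS x a) (by rwa [(θ x).norm_map])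
      exact ⟨z, fun _ => ⟨hz, h⟩⟩
    · exact ⟨x, fun h => absurd h ha⟩
  choose φ hφ using hφ
  have hlow : ∀ x, ∀ z ∈ Wl f ε x, ∀ z' ∈ Wl f ε x,
      dist z z' ≤ C * ‖s.S x (E.e z - E.e x) - s.S x (E.e z' - E.e x)‖ := by
    intro x z hz z' hz'
    have h1 := hcrd.lower x z (Wl_mono (min_le_left _ _) hz) z' (Wl_mono (min_le_left _ _) hz')
    have h2 : s.S x (E.e z - E.e x) - s.S x (E.e z' - E.e x) = s.S x (E.e z - E.e z') := by
      rw [← map_sub]
      congr 1
      abel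
    rw [h2]
    exact h1
  have hupp : ∀ x z z', ‖s.S x (E.e z - E.e x) - s.S x (E.e z' - E.e x)‖ ≤ K * dist z z' := by
    intro x z z'
    have h2 : s.S x (E.e z - E.e x) - s.S x (E.e z' - E.e x) = s.S x (E.e z - E.e z') := by
      rw [← map_sub]
      congr 1
      abel
    rw [h2, E.dist_eq]
    exact (s.S x).le_of_opNorm_le (hK x).1 _
  have hdist : ∀ x, ∀ a ∈ Metric.closedBall (0 : EuclideanSpace ℝ (Fin u)) r,
      ∀ b ∈ Metric.closedBall (0 : EuclideanSpace ℝ (Fin u)) r,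
      dist (φ x a) (φ x b) ≤ C * dist a b ∧ dist a b ≤ K * dist (φ x a) (φ x b) := by
    intro x a ha b hb
    rw [mem_closedBall_zero_iff] at ha hb
    obtain ⟨h1, h2⟩ := hφ x a ha
    obtain ⟨h3, h4⟩ := hφ x b hb
    have e : ‖s.S x (E.e (φ x a) - E.e x) - s.S x (E.e (φ x b) - E.e x)‖ = dist a b := by
      rw [h2, h4, ← map_sub, (θ x).norm_map, ← dist_eq_norm]
    have h5 := hlow x _ h1 _ h3
    have h6 := hupp x (φ x a) (φ x b)
    rw [e] at h5 h6
    exact ⟨h5, h6⟩
  have h0 : ∀ x, φ x 0 = x := by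
    intro x
    obtain ⟨h1, h2⟩ := hφ x 0 (by rw [norm_zero]; exact hr.le)
    have h3 := hlow x _ h1 x (mem_Wl_self hε0.le)
    rw [h2, map_zero, sub_self, map_zero, sub_zero, norm_zero, mul_zero] at h3
    exact dist_le_zero.1 h3
  refine ⟨r, max C K, φ, hr, hC.trans (le_max_left _ _), h0, fun x a ha b hb => ?_,
    fun x a ha b hb => ?_, fun ε' hε' => ?_, fun r' hr' => ?_⟩
  · refine (hdist x a ha b hb).1.trans ?_
    gcongr
    exact le_max_left _ _
  · refine (hdist x a ha b hb).2.trans ?_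
    gcongr
    exact le_max_right _ _
  · refine ⟨min r (ε' / (CD * C)), lt_min hr (by positivity), min_le_left _ _, fun x a ha => ?_⟩
    have har : a ∈ Metric.closedBall (0 : EuclideanSpace ℝ (Fin u)) r :=
      Metric.closedBall_subset_closedBall (min_le_left _ _) ha
    have h1 := (hdist x a har 0 (Metric.mem_closedBall_self hr.le)).1
    rw [h0 x, dist_zero_right] at h1
    rw [mem_closedBall_zero_iff] at ha har
    have h2 := (hφ x a har).1
    intro k
    have h3 := hD.dec x _ (Wl_mono (min_le_right _ _) h2) k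
    have h4 : l ^ k ≤ 1 := pow_le_one₀ hD.l_pos.le hD.l_lt.le
    have h5 : ‖a‖ ≤ ε' / (CD * C) := ha.trans (min_le_right _ _)
    have h6 : 0 ≤ l ^ k := pow_nonneg hD.l_pos.le _
    calc dist (f^[k] (φ x a)) (f^[k] x) ≤ CD * l ^ k * dist (φ x a) x := h3
      _ ≤ CD * 1 * (C * (ε' / (CD * C))) := by
        have h7 : dist (φ x a) x ≤ C * (ε' / (CD * C)) := h1.trans (by gcongr)
        gcongr
      _ = ε' := by field_simp
  · refine ⟨min ε (min r r' / K), lt_min hε0 (by positivity), fun x z hz => ?_⟩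
    obtain ⟨v, hv⟩ := hθr x (E.e z - E.e x)
    have hvn : ‖v‖ ≤ min r r' := by
      rw [← (θ x).norm_map, hv]
      have h1 := hupp x z x
      rw [sub_self, map_zero, sub_zero] at h1
      have h2 : dist z x ≤ min r r' / K := (Wl_dist hz).trans (min_le_right _ _)
      calc _ ≤ K * dist z x := h1
        _ ≤ K * (min r r' / K) := by gcongr
        _ = min r r' := by field_simp
    have hvr : ‖v‖ ≤ r := hvn.trans (min_le_left _ _)
    refine ⟨v, ?_, ?_⟩
    · rw [mem_closedBall_zero_iff]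
      exact hvn.trans (min_le_right _ _)
    · obtain ⟨h1, h2⟩ := hφ x v hvr
      have h3 := hlow x _ h1 z (Wl_mono (min_le_left _ _) hz)
      rw [h2, hv, sub_self, norm_zero, mul_zero] at h3
      exact dist_le_zero.1 h3

end Pool.Agent.Lib.MP610fe3.H6
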