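import Mathlib

/-!
# The volume of a set which is a Lipschitz image of another set
-/

open Set Filter Function MeasureTheory
open scoped Topology

namespace Pool.Agent.Lib.MP610fe3.H6

theorem volume_le_of_rel {u : ℕ} {Λ : ℝ} (hΛ : 0 ≤ Λ) {S T : Set (EuclideanSpace ℝ (Fin u))}
    {rel : EuclideanSpace ℝ (Fin u) → EuclideanSpace ℝ (Fin u) → Prop}
    (h1 : ∀ a ∈ T, ∃ b ∈ S, rel a b)
    (h2 : ∀ a ∈ T, ∀ a' ∈ T, ∀ b ∈ S, ∀ b' ∈ S, rel a b → rel a' b' → dist a a' ≤ Λ * dist b b') :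
    volume T ≤ ENNReal.ofReal (Λ ^ u) * volume S := by
  classical
  choose! b hbS hbr using h1
  set g : T → EuclideanSpace ℝ (Fin u) := fun a => b a with hg
  have hanti : AntilipschitzWith Λ.toNNReal g := by
    refine AntilipschitzWith.of_le_mul_dist fun a a' => ?_
    rw [Real.coe_toNNReal _ hΛ]
    exact h2 a a.2 a' a'.2 _ (hbS a a.2) _ (hbS a' a'.2) (hbr a a.2) (hbr a' a'.2)
  have hu : (0 : ℝ) ≤ Module.finrank ℝ (EuclideanSpace ℝ (Fin u)) := Nat.cast_nonneg _
  have hH : μH[Module.finrank ℝ (EuclideanSpace ℝ (Fin u))] T ≤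
      ENNReal.ofReal (Λ ^ u) * μH[Module.finrank ℝ (EuclideanSpace ℝ (Fin u))] S := by
    have e1 : μH[Module.finrank ℝ (EuclideanSpace ℝ (Fin u))] T =
        μH[Module.finrank ℝ (EuclideanSpace ℝ (Fin u))] (univ : Set T) := by
      have := (isometry_subtype_coe (s := T)).hausdorffMeasure_image (Or.inl hu) (univ : Set T)
      rw [← this, image_univ, Subtype.range_coe]
    have e2 := hanti.le_hausdorffMeasure_image hu (univ : Set T)
    have e3 : g '' univ ⊆ S := by
      rintro _ ⟨a, -, rfl⟩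
      exact hbS a a.2
    rw [e1]
    refine e2.trans ?_
    have e4 : ((Λ.toNNReal : ENNReal)) ^
        (Module.finrank ℝ (EuclideanSpace ℝ (Fin u)) : ℝ) = ENNReal.ofReal (Λ ^ u) := by
      rw [finrank_euclideanSpace_fin, ENNReal.rpow_natCast, ENNReal.ofReal_pow hΛ]
      rfl
    rw [e4]
    gcongr
  obtain ⟨c, hc0, hct, hc⟩ : ∃ c : ENNReal, c ≠ 0 ∧ c ≠ ⊤ ∧
      (μH[Module.finrank ℝ (EuclideanSpace ℝ (Fin u))] : Measure (EuclideanSpace ℝ (Fin u))) =
        c • volume :=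
    ⟨_, by
      have := Measure.addHaarScalarFactor_pos_of_isAddHaarMeasure
        (μH[Module.finrank ℝ (EuclideanSpace ℝ (Fin u))] : Measure (EuclideanSpace ℝ (Fin u)))
        (volume : Measure (EuclideanSpace ℝ (Fin u)))
      exact (ENNReal.coe_pos.2 this).ne', ENNReal.coe_ne_top,
      Measure.isAddLeftInvariant_eq_smul _ _⟩
  rw [hc] at hH
  simp only [Measure.smul_apply, smul_eq_mul] at hH
  rw [mul_left_comm] at hH
  exact (ENNReal.mul_le_mul_iff_right hc0 hct).1 hH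

end Pool.Agent.Lib.MP610fe3.H6
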