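import Pool.Agent.Lib.MP_610fe3_an.H6E.Reach
import Pool.Agent.Lib.MP_610fe3_an.H6E.LipRel

/-!
# Neighbouring points of unstable sets are joined by cheap arcs, at every level
-/

open Set Filter Function MeasureTheory
open scoped Topology

namespace Pool.Agent.Lib.MP610fe3.H6

open Cf

variable {M : Type*} [MetricSpace M] {f : M ≃ₜ M} {u : ℕ}
  {φ : M → EuclideanSpace ℝ (Fin u) → M}

/-- Cheap covers of the unstable plaques of the points of `P`: closed sets which stay small up to time `m`, and the sum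
of the `(u - 1)`-th powers of their diameters is at most `Λ * exp (b * m)`. -/
def Cost (f : M ≃ₜ M) (u : ℕ) (φ : M → EuclideanSpace ℝ (Fin u) → M) (P : Set M)
    (ε₃ ρ b Λ : ℝ) : Prop :=
  ∀ (m : ℕ), ∀ x ∈ P, ∃ (N : ℕ) (D : Fin N → Set (EuclideanSpace ℝ (Fin u))) (r : Fin N → ℝ),
    (∀ i, IsClosed (D i)) ∧ Metric.closedBall 0 ρ ⊆ ⋃ i, D i ∧ (∀ i, 0 < r i) ∧
    (∀ i, ∀ a ∈ D i, ∀ b ∈ D i, dist a b ≤ r i) ∧
    (∀ i, ∀ a ∈ D i, ∀ b ∈ D i, ∀ k ≤ m, dist (f^[k] (φ x a)) (f^[k] (φ x b)) ≤ ε₃) ∧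
    ∑ i, r i ^ (u - 1) ≤ Λ * Real.exp (b * m)

theorem ball_vol (u : ℕ) {r : ℝ} (hr : 0 < r) :
    ∃ V : ℝ, 0 < V ∧ volume (Metric.closedBall (0 : EuclideanSpace ℝ (Fin u)) r) =
      ENNReal.ofReal V := by
  have h1 : 0 < volume (Metric.closedBall (0 : EuclideanSpace ℝ (Fin u)) r) :=
    Metric.measure_closedBall_pos _ _ hr
  have h2 : volume (Metric.closedBall (0 : EuclideanSpace ℝ (Fin u)) r) < ⊤ :=
    measure_closedBall_lt_top
  exact ⟨_, ENNReal.toReal_pos h1.ne' h2.ne, (ENNReal.ofReal_toReal h2.ne).symm⟩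

/-- The image of a small plaque is contained in a plaque. -/
theorem UPlaq.exists_shift [CompactSpace M] {ρ₀ L ρ : ℝ} (h : UPlaq f u ρ₀ L φ) (hρ : 0 < ρ) :
    ∃ ρ' : ℝ, 0 < ρ' ∧ ρ' ≤ ρ ∧ ∀ x, ∀ a ∈ Metric.closedBall 0 ρ', ∃ b ∈ Metric.closedBall 0 ρ,
      φ (f x) b = f (φ x a) := by
  obtain ⟨ε', hε', honto⟩ := h.onto ρ hρ
  obtain ⟨δ, hδ, hfc⟩ := Metric.uniformContinuous_iff.1
    (CompactSpace.uniformContinuous_of_continuous f.continuous) ε' hε'
  obtain ⟨r, hr, hrρ, hmem⟩ := h.mem (min ε' (δ / 2)) (lt_min hε' (by positivity))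
  refine ⟨min r ρ, lt_min hr hρ, min_le_right _ _, fun x a ha => ?_⟩
  have h1 := hmem x a (Metric.closedBall_subset_closedBall (min_le_left _ _) ha)
  obtain ⟨b, hb, hb'⟩ := honto (f x) (f (φ x a)) (by
    intro k
    rcases k with _ | k
    · simp only [iterate_zero, id_eq]
      refine (hfc ?_).le
      exact (Wl_dist h1).trans_lt ((min_le_right _ _).trans_lt (by linarith))
    · rw [iterate_succ_apply, iterate_succ_apply, Homeomorph.symm_apply_apply,
        Homeomorph.symm_apply_apply]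
      exact (h1 k).trans (min_le_left _ _))
  exact ⟨b, hb, hb'⟩

/-- The inductive claim: most points of a plaque are reached from the centre with few steps. -/
theorem exists_most [CompactSpace M] (hAvg : SpecAvg) (hu : 1 ≤ u) {P : Set M}
    (hP : ∀ x ∈ P, f x ∈ P) {ε₀ C θ ρ₀ L ε ε₃ ρ ρ' b Λ : ℝ} (hD : Dec f.symm ε₀ C θ) (hφ : UPlaq f u ρ₀ L φ) (hε : 0 < ε) (hε₃ : ε₃ ≤ ε₀)
    (hloc : ∀ x, ∀ z ∈ Wl f.symm ε₃ x, Reach f ε 0 1 x z) (hρ : 0 < ρ) (hρρ : ρ ≤ ρ₀)
    (hρm : ∀ x, ∀ a ∈ Metric.closedBall 0 ρ, φ x a ∈ Wl f.symm (ε₃ / 2) x)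
    (hρ' : 0 < ρ') (hρ'ρ : ρ' ≤ ρ) (hshift : ∀ x, ∀ a ∈ Metric.closedBall 0 ρ',
      ∃ b ∈ Metric.closedBall 0 ρ, φ (f x) b = f (φ x a)) (hb : 0 < b)
    (hcost : Cost f u φ P ε₃ ρ b Λ) {η : ℝ} (hη : 0 < η) :
    ∃ S : ℝ, 0 < S ∧ ∀ m : ℕ, ∃ K : ℕ, (K : ℝ) ≤ S * Real.exp (b * m) ∧ ∀ x ∈ P,
      volume {a | a ∈ Metric.closedBall 0 ρ ∧ ¬ Reach f ε m K x (φ x a)} ≤
        ENNReal.ofReal η := by
  classical
  have hC := hD.one_le
  have hL := hφ.one_le
  obtain ⟨CA, hCA, hA⟩ := hAvg u hu ρ hρ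
  obtain ⟨V, hV, hVe⟩ := ball_vol u hρ'
  -- smaller `η`
  wlog hηs : (L * (C * L)) ^ u * η ≤ V / 2 generalizing η
  · obtain ⟨S, hS, H⟩ := this (η := min η (V / (2 * (L * (C * L)) ^ u)))
      (lt_min hη (by positivity)) (by
        have h1 : min η (V / (2 * (L * (C * L)) ^ u)) ≤ V / (2 * (L * (C * L)) ^ u) :=
          min_le_right _ _
        have h2 : 0 < (L * (C * L)) ^ u := by positivity
        calc (L * (C * L)) ^ u * min η (V / (2 * (L * (C * L)) ^ u))
            ≤ (L * (C * L)) ^ u * (V / (2 * (L * (C * L)) ^ u)) := by gcongr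
          _ = V / 2 := by field_simp)
    refine ⟨S, hS, fun m => ?_⟩
    obtain ⟨K, hK, H'⟩ := H m
    exact ⟨K, hK, fun x hx => (H' x hx).trans (ENNReal.ofReal_le_ofReal (min_le_left _ _))⟩
  set A : ℝ := CA * max Λ 0 / (V / 2 * η) with hAdef
  have hA0 : 0 ≤ A := by positivity
  set E : ℝ := Real.exp b - 1 with hE
  have hE0 : 0 < E := by
    have := Real.add_one_lt_exp hb.ne'
    rw [hE]
    linarith
  set S : ℝ := (A * Real.exp b + 3) / E + 1 with hS
  have hS0 : 0 < S := by positivity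
  have hSE : S * E = A * Real.exp b + 3 + E := by
    rw [hS]
    field_simp
  have hpair : ∀ x, ∀ a ∈ Metric.closedBall 0 ρ, ∀ a' ∈ Metric.closedBall 0 ρ,
      φ x a' ∈ Wl f.symm ε₃ (φ x a) := by
    intro x a ha a' ha'
    have := Wl_trans (Wl_comm (hρm x a ha)) (hρm x a' ha')
    rwa [add_halves] at this
  refine ⟨S, hS0, fun m => ?_⟩
  induction m with
  | zero =>
    refine ⟨1, ?_, fun x _ => ?_⟩
    · simp only [Nat.cast_one, Nat.cast_zero, mul_zero, Real.exp_zero, mul_one]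
      rw [hS]
      have : 0 ≤ (A * Real.exp b + 3) / E := by positivity
      linarith
    · have : {a | a ∈ Metric.closedBall 0 ρ ∧ ¬ Reach f ε 0 1 x (φ x a)} = ∅ := by
        ext a
        simp only [mem_ofPred_eq, mem_empty_iff_false, iff_false, not_and, not_not]
        intro ha
        refine hloc x _ (Wl_mono ?_ (hρm x a ha))
        have := Wl_nonneg (hρm x a ha)
        linarith
      rw [this]
      simp
  | succ m ih =>
    obtain ⟨K, hK, hW⟩ := ih
    obtain ⟨k, hk⟩ : ∃ k : ℕ, k = ⌈A * Real.exp (b * (m + 1 : ℕ))⌉₊ + 1 := ⟨_, rfl⟩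
    have hexp0 : 0 < Real.exp (b * (m + 1 : ℕ)) := Real.exp_pos _
    have hk1 : A * Real.exp (b * (m + 1 : ℕ)) < k := by
      have h1 := Nat.le_ceil (A * Real.exp (b * (m + 1 : ℕ)))
      rw [hk]
      push_cast at h1 ⊢
      linarith
    have hk2 : (k : ℝ) ≤ A * Real.exp (b * (m + 1 : ℕ)) + 2 := by
      have h1 := Nat.ceil_lt_add_one (mul_nonneg hA0 hexp0.le)
      rw [hk]
      push_cast at h1 ⊢
      linarith
    refine ⟨K + (k + 1), ?_, fun x hxP => ?_⟩
    · have hexp : Real.exp (b * (m + 1 : ℕ)) = Real.exp (b * m) * Real.exp b := by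
        rw [← Real.exp_add]
        congr 1
        push_cast
        ring
      have h1 : 1 ≤ Real.exp (b * m) := Real.one_le_exp (by positivity)
      have h2 : Real.exp b = E + 1 := by rw [hE]; ring
      rw [Nat.cast_add, Nat.cast_add, Nat.cast_one]
      rw [hexp] at hk2 ⊢
      have h3 : S * (Real.exp (b * m) * Real.exp b) =
          S * Real.exp (b * m) + (S * E) * Real.exp (b * m) := by
        rw [h2]
        ring
      rw [h3, hSE]
      nlinarith
    · set W : Set (EuclideanSpace ℝ (Fin u)) :=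
        {b | b ∈ Metric.closedBall 0 ρ ∧ ¬ Reach f ε m K (f x) (φ (f x) b)} with hWdef
      set G : Set (EuclideanSpace ℝ (Fin u)) := {a | a ∈ Metric.closedBall 0 ρ' ∧
        ∃ b ∈ Metric.closedBall 0 ρ, b ∉ W ∧ φ (f x) b = f (φ x a)} with hG
      set T : Set (EuclideanSpace ℝ (Fin u)) := {a | a ∈ Metric.closedBall 0 ρ' ∧
        ∃ b ∈ W, φ (f x) b = f (φ x a)} with hT
      set H : Set (EuclideanSpace ℝ (Fin u)) := {a | a ∈ Metric.closedBall 0 ρ ∧
        ¬ Reach f ε (m + 1) (K + (k + 1)) x (φ x a)} with hH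
      have hGT : Metric.closedBall 0 ρ' ⊆ G ∪ T := by
        intro a ha
        obtain ⟨b, hb, hbe⟩ := hshift x a ha
        by_cases hbW : b ∈ W
        · exact Or.inr ⟨ha, b, hbW, hbe⟩
        · exact Or.inl ⟨ha, b, hb, hbW, hbe⟩
      have hTW : volume T ≤ ENNReal.ofReal ((L * (C * L)) ^ u) * volume W := by
        refine volume_le_of_rel (by positivity) (rel := fun a b => φ (f x) b = f (φ x a))
          (fun a ha => ha.2) ?_
        intro a ha a' ha' b hb b' hb' hab hab'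
        have haρ : ∀ {a}, a ∈ T → a ∈ Metric.closedBall (0 : EuclideanSpace ℝ (Fin u)) ρ₀ :=
          fun h => Metric.closedBall_subset_closedBall (hρ'ρ.trans hρρ) h.1
        have e1 : ∀ {a b}, φ (f x) b = f (φ x a) → φ x a = f.symm (φ (f x) b) := by
          intro a b h
          rw [h, Homeomorph.symm_apply_apply]
        have h1 := hφ.lower x a (haρ ha) a' (haρ ha')
        have h2 := hD.dec _ _ (Wl_mono hε₃ (hpair (f x) b' hb'.1 b hb.1)) 1
        simp only [iterate_one, pow_one] at h2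
        have h3 := hφ.upper (f x) b (Metric.closedBall_subset_closedBall hρρ hb.1) b'
          (Metric.closedBall_subset_closedBall hρρ hb'.1)
        rw [e1 hab, e1 hab'] at h1
        have h4 : C * θ ≤ C := by
          have := hD.l_lt
          nlinarith
        calc dist a a' ≤ L * dist (f.symm (φ (f x) b)) (f.symm (φ (f x) b')) := h1
          _ ≤ L * (C * θ * dist (φ (f x) b) (φ (f x) b')) := by gcongr
          _ ≤ L * (C * (L * dist b b')) := by gcongr
          _ = L * (C * L) * dist b b' := by ring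
      have hGV : ENNReal.ofReal (V / 2) ≤ volume G := by
        have h1 : ENNReal.ofReal (V / 2) + ENNReal.ofReal (V / 2) ≤
            volume G + ENNReal.ofReal (V / 2) := by
          rw [← ENNReal.ofReal_add (by positivity) (by positivity), add_halves, ← hVe]
          refine (measure_mono hGT).trans ((measure_union_le _ _).trans ?_)
          gcongr
          refine hTW.trans ?_
          calc ENNReal.ofReal ((L * (C * L)) ^ u) * volume W
              ≤ ENNReal.ofReal ((L * (C * L)) ^ u) * ENNReal.ofReal η := by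
                gcongr
                exact hW (f x) (hP x hxP)
            _ = ENNReal.ofReal ((L * (C * L)) ^ u * η) := by
                rw [ENNReal.ofReal_mul (by positivity)]
            _ ≤ ENNReal.ofReal (V / 2) := ENNReal.ofReal_le_ofReal hηs
        exact ENNReal.le_of_add_le_add_right ENNReal.ofReal_ne_top h1
      obtain ⟨N, D, r, hDc, hDcov, hr, hDr, hDm, hsum⟩ := hcost (m + 1) x hxP
      have hlink : ∀ z ∈ G, ∀ w ∈ H, ¬ Linked D (Metric.closedBall 0 ρ) k z w := by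
        intro z hz w hw hl
        have h1 : Reach f ε (m + 1) (k + 1) (φ x z) (φ x w) :=
          reach_of_linked hε.le (fun j a ha b hb haB hbB =>
            reach_of_bowen hloc (hpair x a haB b hbB) (m + 1) (hDm j b hb a ha)) hl
        obtain ⟨-, b, hb, hbW, hbe⟩ := hz
        have h2 : Reach f ε m K (f x) (f (φ x z)) := by
          rw [← hbe]
          by_contra hcon
          exact hbW ⟨hb, hcon⟩
        have h3 : Reach f ε (m + 1) K x (φ x z) := Reach.pull 1 h2
        exact hw.2 (h3.trans h1)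
      have hav := hA N D r hDc hDcov hr hDr k G H
        (fun a ha => Metric.closedBall_subset_closedBall hρ'ρ ha.1) (fun a ha => ha.1) hlink
      have hsum' : CA * ∑ i, r i ^ (u - 1) ≤
          A * Real.exp (b * (m + 1 : ℕ)) * (V / 2) * η := by
        have h1 : CA * ∑ i, r i ^ (u - 1) ≤ CA * (max Λ 0 * Real.exp (b * (m + 1 : ℕ))) := by
          refine mul_le_mul_of_nonneg_left (hsum.trans ?_) hCA.le
          gcongr
          exact le_max_left _ _
        refine h1.trans (le_of_eq ?_)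
        rw [hAdef]
        field_simp
      by_contra hcon
      push Not at hcon
      have hkpos : (0 : ℝ) ≤ k := Nat.cast_nonneg k
      have h1 : ENNReal.ofReal (k * (V / 2) * η) ≤
          ENNReal.ofReal (A * Real.exp (b * (m + 1 : ℕ)) * (V / 2) * η) := by
        calc ENNReal.ofReal (k * (V / 2) * η)
            = (k : ENNReal) * ENNReal.ofReal (V / 2) * ENNReal.ofReal η := by
              rw [ENNReal.ofReal_mul (by positivity), ENNReal.ofReal_mul hkpos,
                ENNReal.ofReal_natCast]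
          _ ≤ (k : ENNReal) * volume G * volume H := by
              gcongr
          _ ≤ ENNReal.ofReal (CA * ∑ i, r i ^ (u - 1)) := hav
          _ ≤ _ := ENNReal.ofReal_le_ofReal hsum'
      rw [ENNReal.ofReal_le_ofReal_iff (by positivity)] at h1
      have h2 : A * Real.exp (b * (m + 1 : ℕ)) * (V / 2) * η < k * (V / 2) * η := by
        have : 0 < V / 2 := by positivity
        gcongr
      linarith

/-- **Neighbouring points of unstable sets are joined by cheap arcs.** -/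
theorem reach_of_cost [CompactSpace M] (hAvg : SpecAvg) {P : Set M} (hP : ∀ x ∈ P, f x ∈ P)
    {ε₀ C θ ρ₀ L ε b : ℝ}
    (hD : Dec f.symm ε₀ C θ) (hφ : UPlaq f u ρ₀ L φ) (hε : 0 < ε) (hb : 0 < b)
    (hcost : ∀ ε₃ : ℝ, 0 < ε₃ → ∃ ρ₁ : ℝ, 0 < ρ₁ ∧ ∀ ρ : ℝ, 0 < ρ → ρ ≤ ρ₁ →
      ∃ Λ : ℝ, Cost f u φ P ε₃ ρ b Λ) :
    ∃ Λ' ε₄ : ℝ, 0 ≤ Λ' ∧ 0 < ε₄ ∧ ∀ (m : ℕ), ∀ p ∈ P, ∀ p' ∈ P, p' ∈ Wl f.symm ε₄ p →
      ∃ K : ℕ, (K : ℝ) ≤ Λ' * Real.exp (b * m) ∧ Reach f ε m K p p' := by
  rcases Nat.eq_zero_or_pos u with hu | hu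
  · -- unstable sets are points
    subst hu
    obtain ⟨ε', hε', honto⟩ := hφ.onto 1 one_pos
    refine ⟨1, ε', zero_le_one, hε', fun m p _ p' _ hp' => ⟨1, ?_, ?_⟩⟩
    · rw [one_mul, Nat.cast_one]
      exact Real.one_le_exp (by positivity)
    · obtain ⟨a, -, ha⟩ := honto p p' hp'
      have : a = 0 := Subsingleton.elim _ _
      rw [this, hφ.zero] at ha
      rw [← ha]
      exact Reach.refl hε.le p
  · have hL := hφ.one_le
    obtain ⟨ε₃, hε₃, hε₃ε₀, hloc⟩ := hφ.exists_reach hD hε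
    obtain ⟨ρ₁, hρ₁, hcost⟩ := hcost ε₃ hε₃
    obtain ⟨r₁, hr₁, hr₁ρ, hmem₁⟩ := hφ.mem (ε₃ / 2) (by positivity)
    set ρ : ℝ := min r₁ ρ₁ with hρdef
    have hρ : 0 < ρ := lt_min hr₁ hρ₁
    obtain ⟨Λ, hcostΛ⟩ := hcost ρ hρ (min_le_right _ _)
    have hρρ : ρ ≤ ρ₀ := (min_le_left _ _).trans hr₁ρ
    have hρm : ∀ x, ∀ a ∈ Metric.closedBall 0 ρ, φ x a ∈ Wl f.symm (ε₃ / 2) x := fun x a ha =>
      hmem₁ x a (Metric.closedBall_subset_closedBall (min_le_left _ _) ha)
    obtain ⟨ρ', hρ', hρ'ρ, hshift⟩ := hφ.exists_shift hρ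
    obtain ⟨ε₅, hε₅, honto⟩ := hφ.onto ρ hρ
    obtain ⟨r₂, hr₂, hr₂ρ, hmem₂⟩ := hφ.mem (ε₅ / 2) (by positivity)
    have hr : 0 < min r₂ ρ := lt_min hr₂ hρ
    obtain ⟨V, hV, hVe⟩ := ball_vol u hr
    set η : ℝ := V / (2 * (1 + (L * L) ^ u)) with hη
    have hη0 : 0 < η := by positivity
    obtain ⟨S, hS, H⟩ := exists_most hAvg hu hP hD hφ hε hε₃ε₀ hloc hρ hρρ hρm hρ' hρ'ρ hshift hb
      hcostΛ hη0
    refine ⟨2 * S, ε₅ / 2, by positivity, by positivity, fun m p hpP p' hpP' hp' => ?_⟩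
    obtain ⟨K, hK, HK⟩ := H m
    refine ⟨K + K, ?_, ?_⟩
    · rw [Nat.cast_add]
      linarith
    · by_contra hcon
      set T : Set (EuclideanSpace ℝ (Fin u)) := {a | a ∈ Metric.closedBall 0 (min r₂ ρ) ∧
        ∃ b ∈ {b | b ∈ Metric.closedBall 0 ρ ∧ ¬ Reach f ε m K p' (φ p' b)},
          φ p' b = φ p a} with hT
      have hcov : Metric.closedBall 0 (min r₂ ρ) ⊆
          {a | a ∈ Metric.closedBall 0 ρ ∧ ¬ Reach f ε m K p (φ p a)} ∪ T := by
        intro a ha
        by_cases h1 : Reach f ε m K p (φ p a)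
        · right
          have h2 : φ p a ∈ Wl f.symm ε₅ p' := by
            have := Wl_trans (Wl_comm hp')
              (hmem₂ p a (Metric.closedBall_subset_closedBall (min_le_left _ _) ha))
            rwa [add_halves] at this
          obtain ⟨b, hb, hbe⟩ := honto p' _ h2
          refine ⟨ha, b, ⟨hb, fun h3 => hcon ?_⟩, hbe⟩
          rw [hbe] at h3
          exact h1.trans h3.symm
        · left
          exact ⟨Metric.closedBall_subset_closedBall (min_le_right _ _) ha, h1⟩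
      have hTW : volume T ≤ ENNReal.ofReal ((L * L) ^ u) *
          volume {b | b ∈ Metric.closedBall 0 ρ ∧ ¬ Reach f ε m K p' (φ p' b)} := by
        refine volume_le_of_rel (by positivity) (rel := fun a b => φ p' b = φ p a)
          (fun a ha => ha.2) ?_
        intro a ha a' ha' b hb b' hb' hab hab'
        have haρ : ∀ {a}, a ∈ T → a ∈ Metric.closedBall (0 : EuclideanSpace ℝ (Fin u)) ρ₀ :=
          fun h => Metric.closedBall_subset_closedBall ((min_le_right _ _).trans hρρ) h.1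
        have h1 := hφ.lower p a (haρ ha) a' (haρ ha')
        have h3 := hφ.upper p' b (Metric.closedBall_subset_closedBall hρρ hb.1) b'
          (Metric.closedBall_subset_closedBall hρρ hb'.1)
        rw [← hab, ← hab'] at h1
        calc dist a a' ≤ L * dist (φ p' b) (φ p' b') := h1
          _ ≤ L * (L * dist b b') := by gcongr
          _ = L * L * dist b b' := by ring
      have h1 : ENNReal.ofReal V ≤ ENNReal.ofReal (η + (L * L) ^ u * η) := by
        rw [← hVe]
        refine (measure_mono hcov).trans ((measure_union_le _ _).trans ?_)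
        rw [ENNReal.ofReal_add hη0.le (by positivity), ENNReal.ofReal_mul (by positivity)]
        refine add_le_add (HK p hpP) (hTW.trans ?_)
        gcongr
        exact HK p' hpP'
      rw [ENNReal.ofReal_le_ofReal_iff (by positivity)] at h1
      have h2 : η + (L * L) ^ u * η = V / 2 := by
        rw [hη]
        field_simp
      linarith

end Pool.Agent.Lib.MP610fe3.H6
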