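import Pool.Agent.Lib.MP_610fe3_an.H6E.LevelExt
import Pool.Agent.Lib.MP_610fe3_an.H6G.Master

/-!
# The finite level principle
-/

open Set Filter Function
open scoped Topology

namespace Pool.Agent.Lib.MP610fe3.H6

open Cf

variable {M : Type*} [MetricSpace M] {f : M ≃ₜ M}

/-- One side controls the other one, at one level. -/
theorem level_step {ε₀ C θ ε α₁ C₁ S T : ℝ} {R : ℝ × ℝ → M} (hD : Dec f.symm ε₀ C θ)
    (hε : 0 < ε) (hε₀ : 3 * ε ≤ ε₀) (hα₁ : 0 < α₁) (hlow : Low f (3 * ε) α₁ C₁) {m₀ : ℕ}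
    (hm₀ : C * θ ^ m₀ * (3 * ε) ≤ ε / 2) (hR : Rct f ε R S T) (hS : 0 ≤ S) {m n K : ℕ}
    (hmn : m₀ ≤ n) (hup : Steps f m ε (fun t => R (0, t)) 0 T K)
    (hver : ∀ t ∈ Icc (0 : ℝ) T, ∀ s ∈ Icc (0 : ℝ) S, ∀ s' ∈ Icc (0 : ℝ) S,
      dist (f^[m] (R (s, t))) (f^[m] (R (s', t))) ≤ ε)
    (hK : C₁ * K < Real.exp (α₁ * (n + m - m₀))) :
    ∀ k ≥ n, ∀ s ∈ Icc (0 : ℝ) S, ∀ t ∈ Icc (0 : ℝ) T, ∀ t' ∈ Icc (0 : ℝ) T,
      dist (f.symm^[k] (R (s, t))) (f.symm^[k] (R (s, t'))) ≤ ε / 2 := by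
  intro k hk s hs t ht t' ht'
  have hC := hD.one_le
  have hεε₀ : ε ≤ ε₀ := by linarith
  obtain ⟨j, rfl⟩ : ∃ j, k = m₀ + j := ⟨k - m₀, by omega⟩
  have hclose : ∀ i : ℕ, dist (f.symm^[i + j] (R (s, t))) (f.symm^[i + j] (R (s, t'))) <
      3 * ε := by
    intro i
    refine hR.hor_close hD hε hεε₀ hlow hS hup hver (i + j) hs ht ht' (hK.trans_le ?_)
    apply Real.exp_le_exp.2
    refine mul_le_mul_of_nonneg_left ?_ hα₁.le
    have h1 : (n : ℝ) ≤ m₀ + j := by exact_mod_cast hk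
    have h2 : (0 : ℝ) ≤ i := Nat.cast_nonneg i
    push_cast
    linarith
  have h1 : f.symm^[j] (R (s, t)) ∈ Wl f.symm ε₀ (f.symm^[j] (R (s, t'))) := by
    intro i
    rw [← iterate_add_apply, ← iterate_add_apply]
    exact (hclose i).le.trans hε₀
  have h2 := hD.dec _ _ h1 m₀
  rw [← iterate_add_apply, ← iterate_add_apply] at h2
  refine h2.trans (le_trans ?_ hm₀)
  have h3 := hclose 0
  rw [Nat.zero_add] at h3
  have h4 : 0 ≤ θ ^ m₀ := pow_nonneg hD.l_pos.le _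
  gcongr

/-- If the number of steps of the bottom side at time `m` and of the left side at time `-n` are
small compared with the contraction in time `n + m` then the rectangle exists. -/
theorem level_corner [CompactSpace M] {ε₀ C ν θ ε ε₁ CB α₁ β₁ C₁ C₂ : ℝ} (hD : Dec f ε₀ C ν)
    (hD' : Dec f.symm ε₀ C θ) (hε : 0 < ε) (hε₀ : 3 * ε ≤ ε₀) (hB : Br f ε CB)
    (hε₁ : 0 < ε₁) (hε₁ε : 4 * ε₁ ≤ ε) (hα₁ : 0 < α₁) (hβ₁ : 0 < β₁)
    (hlow : Low f (3 * ε) α₁ C₁) (hlow' : Low f.symm (3 * ε) β₁ C₂) :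
    ∃ m₀ : ℕ, ∀ (x σ : ℝ → M) (m n K L : ℕ), m₀ ≤ m → m₀ ≤ n → UArc f x 0 1 →
      UArc f.symm σ 0 1 → σ 0 = x 0 → Steps f m ε x 0 1 K → Steps f.symm n ε σ 0 1 L →
      C₁ * K < Real.exp (α₁ * (n + m - m₀)) → C₂ * L < Real.exp (β₁ * (n + m - m₀)) →
      ∃ w : M, (∀ k ≥ m, dist (f^[k] w) (f^[k] (x 1)) ≤ ε) ∧
        ∀ k ≥ n, dist (f.symm^[k] w) (f.symm^[k] (σ 1)) ≤ ε := by
  have hεε₀ : ε ≤ ε₀ := by linarith
  obtain ⟨a₁, ha₁⟩ := exists_pow_le (C := C) (ε := 3 * ε) hD.l_pos hD.l_lt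
    (show (0 : ℝ) < ε / 2 by positivity)
  obtain ⟨a₂, ha₂⟩ := exists_pow_le (C := C) (ε := 3 * ε) hD'.l_pos hD'.l_lt
    (show (0 : ℝ) < ε / 2 by positivity)
  have hC := hD.one_le
  set m₀ : ℕ := max a₁ a₂ with hm₀
  have hpow : ∀ {l : ℝ} {a : ℕ}, 0 < l → l < 1 → a ≤ m₀ → C * l ^ a * (3 * ε) ≤ ε / 2 →
      C * l ^ m₀ * (3 * ε) ≤ ε / 2 := by
    intro l a hl hl1 ham h
    refine le_trans ?_ h
    have h1 : l ^ m₀ ≤ l ^ a := pow_le_pow_of_le_one hl.le hl1.le ham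
    gcongr
  have hν := hpow hD.l_pos hD.l_lt (le_max_left a₁ a₂) ha₁
  have hθ := hpow hD'.l_pos hD'.l_lt (le_max_right a₁ a₂) ha₂
  refine ⟨m₀, fun x σ m n K L hm hn hx hσ h0 hK hL hKn hLn => ?_⟩
  -- the control of the rectangles
  have hctrl : ∀ (T : ℝ) (R : ℝ × ℝ → M), 0 ≤ T → T ≤ 1 → Rct f ε R 1 T →
      (∀ s ∈ Icc (0 : ℝ) 1, R (s, 0) = σ s) → (∀ t ∈ Icc (0 : ℝ) T, R (0, t) = x t) →
      (∀ k ≥ m, ∀ t ∈ Icc (0 : ℝ) T, ∀ s ∈ Icc (0 : ℝ) 1, ∀ s' ∈ Icc (0 : ℝ) 1,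
        dist (f^[k] (R (s, t))) (f^[k] (R (s', t))) ≤ ε) →
      (∀ k ≥ n, ∀ s ∈ Icc (0 : ℝ) 1, ∀ t ∈ Icc (0 : ℝ) T, ∀ t' ∈ Icc (0 : ℝ) T,
        dist (f.symm^[k] (R (s, t))) (f.symm^[k] (R (s, t'))) ≤ ε / 2) := by
    intro T R hT hT1 hR hl hb hver
    refine level_step hD' hε hε₀ hα₁ hlow hθ hR zero_le_one hn ?_ (hver m le_rfl) hKn
    exact (hK.sub le_rfl hT hT1).congr fun t ht => hb t ht
  have hctrl' : ∀ (T : ℝ) (R : ℝ × ℝ → M), 0 ≤ T → T ≤ 1 → Rct f ε R 1 T →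
      (∀ s ∈ Icc (0 : ℝ) 1, R (s, 0) = σ s) →
      (∀ k ≥ n, ∀ s ∈ Icc (0 : ℝ) 1, ∀ t ∈ Icc (0 : ℝ) T, ∀ t' ∈ Icc (0 : ℝ) T,
        dist (f.symm^[k] (R (s, t))) (f.symm^[k] (R (s, t'))) ≤ ε / 2) →
      (∀ k ≥ m, ∀ t ∈ Icc (0 : ℝ) T, ∀ s ∈ Icc (0 : ℝ) 1, ∀ s' ∈ Icc (0 : ℝ) 1,
        dist (f^[k] (R (s, t))) (f^[k] (R (s', t))) ≤ ε / 2) := by
    intro T R hT hT1 hR hl hhor
    refine level_step (f := f.symm) (R := fun p => R (p.2, p.1)) (K := L) hD hε hε₀ hβ₁ hlow' hν hR.swap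
      hT hm ?_ (fun s hs t ht t' ht' => (hhor n le_rfl s hs t ht t' ht').trans (by linarith)) ?_
    · exact (hL.sub le_rfl zero_le_one le_rfl).congr fun s hs => hl s hs
    · rwa [add_comm (m : ℝ) n]
  obtain ⟨η, hη, hext⟩ := exists_ext_level hD hD' hε hεε₀ hB hε₁ hε₁ε (σ := σ) hx m
  have key : ∀ k : ℕ, ∃ R : ℝ × ℝ → M, Rct f ε R 1 (min (k * η) 1) ∧
      (∀ s ∈ Icc (0 : ℝ) 1, R (s, 0) = σ s) ∧
      (∀ t ∈ Icc (0 : ℝ) (min (k * η) 1), R (0, t) = x t) ∧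
      (∀ i ≥ m, ∀ t ∈ Icc (0 : ℝ) (min (k * η) 1), ∀ s ∈ Icc (0 : ℝ) 1, ∀ s' ∈ Icc (0 : ℝ) 1,
        dist (f^[i] (R (s, t))) (f^[i] (R (s', t))) ≤ ε / 2) ∧
      (∀ i ≥ n, ∀ s ∈ Icc (0 : ℝ) 1, ∀ t ∈ Icc (0 : ℝ) (min (k * η) 1),
        ∀ t' ∈ Icc (0 : ℝ) (min (k * η) 1),
        dist (f.symm^[i] (R (s, t))) (f.symm^[i] (R (s, t'))) ≤ ε / 2) := by
    intro k
    induction k with
    | zero =>
      have e : min (((0 : ℕ) : ℝ) * η) 1 = 0 := by simp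
      rw [e]
      have hR : Rct f ε (fun q : ℝ × ℝ => σ q.1) 1 0 := by
        refine ⟨?_, ?_, ?_⟩
        · exact hσ.cont.comp continuous_fst.continuousOn fun q hq => hq.1
        · refine ⟨0, fun n _ s _ t _ t' _ => ?_⟩
          rw [dist_self]
          exact hε.le
        · obtain ⟨N, hN⟩ := hσ.asymp ε hε
          exact ⟨N, fun n hn t _ s hs s' hs' => hN n hn s hs s' hs'⟩
      have hhor : ∀ k ≥ n, ∀ s ∈ Icc (0 : ℝ) 1, ∀ t ∈ Icc (0 : ℝ) 0, ∀ t' ∈ Icc (0 : ℝ) 0,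
          dist (f.symm^[k] ((fun q : ℝ × ℝ => σ q.1) (s, t)))
            (f.symm^[k] ((fun q : ℝ × ℝ => σ q.1) (s, t'))) ≤ ε / 2 := by
        intro k _ s _ t _ t' _
        simp only [dist_self]
        positivity
      refine ⟨fun q => σ q.1, hR, fun s _ => rfl, ?_, ?_, hhor⟩
      · intro t ht
        have : t = 0 := le_antisymm ht.2 ht.1
        rw [this, ← h0]
      · exact hctrl' 0 _ le_rfl zero_le_one hR (fun s _ => rfl) hhor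
    | succ k ih =>
      obtain ⟨R, hR, hl, hb, hv, hh⟩ := ih
      have hT0 : 0 ≤ min ((k : ℝ) * η) 1 := by positivity
      have hT0' : 0 ≤ min (((k + 1 : ℕ) : ℝ) * η) 1 := by positivity
      have hT1 : min (((k + 1 : ℕ) : ℝ) * η) 1 ≤ 1 := min_le_right _ _
      obtain ⟨R', hR', hl', hb', hv'⟩ := hext (min (k * η) 1) (min (((k + 1 : ℕ) : ℝ) * η) 1) R
        hT0 (by
          refine min_le_min ?_ le_rfl
          push_cast
          nlinarith) (by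
          push_cast
          rcases le_total ((k : ℝ) * η) 1 with h1 | h1
          · rw [min_eq_left h1]
            exact (min_le_left _ _).trans (by linarith)
          · rw [min_eq_right h1]
            exact (min_le_right _ _).trans (by linarith)) (min_le_right _ _) hR hv hl hb
      have hh' := hctrl _ R' hT0' hT1 hR' hl' hb' hv'
      exact ⟨R', hR', hl', hb', hctrl' _ R' hT0' hT1 hR' hl' hh', hh'⟩
  obtain ⟨k, hk⟩ := exists_nat_gt (1 / η)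
  have hk1 : min ((k : ℝ) * η) 1 = 1 := by
    apply min_eq_right
    rw [div_lt_iff₀ hη] at hk
    exact hk.le
  obtain ⟨R, hR, hl, hb, hv, hh⟩ := key k
  rw [hk1] at hR hb hv hh
  have h01 : (0 : ℝ) ∈ Icc (0 : ℝ) 1 := ⟨le_rfl, zero_le_one⟩
  have h11 : (1 : ℝ) ∈ Icc (0 : ℝ) 1 := ⟨zero_le_one, le_rfl⟩
  refine ⟨R (1, 1), fun k hk => ?_, fun k hk => ?_⟩
  · rw [← hb 1 h11]
    exact (hv k hk 1 h11 1 h11 0 h01).trans (by linarith)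
  · rw [← hl 1 h11]
    exact (hh k hk 1 h11 1 h11 0 h01).trans (by linarith)

theorem exists_trap_const' [CompactSpace M] {U : Set M} (hU : IsOpen U)
    (htrap : f '' closure U ⊆ U) : ∃ δ : ℝ, 0 < δ ∧
      (∀ p ∈ closure U, ∀ z, dist z p ≤ δ → f z ∈ U) ∧
      (∀ p ∉ U, ∀ z, dist z p ≤ δ → z ∉ f '' closure U) := by
  have h1 : closure U ⊆ f ⁻¹' U := fun p hp => htrap ⟨p, hp, rfl⟩
  obtain ⟨δ₁, hδ₁, h2⟩ := isClosed_closure.isCompact.exists_thickening_subset_open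
    (hU.preimage f.continuous) h1
  have hK : IsCompact (f '' closure U) := isClosed_closure.isCompact.image f.continuous
  obtain ⟨δ₂, hδ₂, h4⟩ := hK.exists_thickening_subset_open hU htrap
  refine ⟨min δ₁ δ₂ / 2, by positivity, fun p hp z hz => ?_, fun p hp z hz hz' => hp ?_⟩
  · have : z ∈ Metric.thickening δ₁ (closure U) := by
      rw [Metric.mem_thickening_iff]
      exact ⟨p, hp, hz.trans_lt (by linarith [min_le_left δ₁ δ₂, hδ₁])⟩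
    exact h2 this
  · apply h4
    rw [Metric.mem_thickening_iff]
    exact ⟨z, hz', by
      rw [dist_comm]
      exact hz.trans_lt (by linarith [min_le_right δ₁ δ₂, hδ₂])⟩

/-- **The finite level principle.** -/
theorem level_master [CompactSpace M] {ε₀ C ν θ ε ε₁ CB α₁ β₁ C₁ C₂ : ℝ} (hD : Dec f ε₀ C ν)
    (hD' : Dec f.symm ε₀ C θ) (hε : 0 < ε) (hε₀ : 3 * ε ≤ ε₀) (hB : Br f ε CB)
    (hε₁ : 0 < ε₁) (hε₁ε : 4 * ε₁ ≤ ε) (hα₁ : 0 < α₁) (hβ₁ : 0 < β₁)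
    (hlow : Low f (3 * ε) α₁ C₁) (hlow' : Low f.symm (3 * ε) β₁ C₂) {U : Set M}
    (hU : IsOpen U) (htrap : f '' closure U ⊆ U) :
    ∃ m₀ : ℕ, ∀ (x σ : ℝ → M) (m n K L : ℕ), m₀ ≤ m → m₀ ≤ n → UArc f x 0 1 →
      UArc f.symm σ 0 1 → σ 0 = x 0 → Steps f m ε x 0 1 K → Steps f.symm n ε σ 0 1 L →
      f^[m + m₀] (x 1) ∉ U → f.symm^[n + m₀] (σ 1) ∈ closure U →
      C₁ * K < Real.exp (α₁ * (n + m - m₀)) → Real.exp (β₁ * (n + m - m₀)) ≤ C₂ * L := by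
  obtain ⟨m₃, hcor⟩ := level_corner hD hD' hε hε₀ hB hε₁ hε₁ε hα₁ hβ₁ hlow hlow'
  obtain ⟨δ, hδ, hδ1, hδ2⟩ := exists_trap_const' hU htrap
  obtain ⟨m₁, hm₁⟩ := exists_pow_le (C := C) (ε := ε) hD.l_pos hD.l_lt hδ
  obtain ⟨m₂, hm₂⟩ := exists_pow_le (C := C) (ε := ε) hD'.l_pos hD'.l_lt hδ
  have hεε₀ : ε ≤ ε₀ := by linarith
  have hC := hD.one_le
  set m₀ : ℕ := max (max m₁ m₂) (max m₃ 1) with hm₀
  have h1 : m₁ ≤ m₀ := (le_max_left _ _).trans (le_max_left _ _)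
  have h2 : m₂ ≤ m₀ := (le_max_right _ _).trans (le_max_left _ _)
  have h3 : m₃ ≤ m₀ := (le_max_left _ _).trans (le_max_right _ _)
  have h4 : 1 ≤ m₀ := (le_max_right _ _).trans (le_max_right _ _)
  have hpow : ∀ {l : ℝ} {a : ℕ}, 0 < l → l < 1 → a ≤ m₀ → C * l ^ a * ε ≤ δ →
      C * l ^ m₀ * ε ≤ δ := by
    intro l a hl hl1 ham h
    refine le_trans ?_ h
    have h1 : l ^ m₀ ≤ l ^ a := pow_le_pow_of_le_one hl.le hl1.le ham
    gcongr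
  refine ⟨m₀, fun x σ m n K L hm hn hx hσ h0 hK hL hxU hσU hKn => ?_⟩
  by_contra hcon
  push Not at hcon
  have hmm : ((m₃ : ℕ) : ℝ) ≤ m₀ := by exact_mod_cast h3
  obtain ⟨w, hw1, hw2⟩ := hcor x σ m n K L (h3.trans hm) (h3.trans hn) hx hσ h0 hK hL
    (hKn.trans_le (Real.exp_le_exp.2 (mul_le_mul_of_nonneg_left (by linarith) hα₁.le)))
    (hcon.trans_le (Real.exp_le_exp.2 (mul_le_mul_of_nonneg_left (by linarith) hβ₁.le)))
  have e1 : dist (f^[m + m₀] w) (f^[m + m₀] (x 1)) ≤ δ := by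
    have h5 : f^[m] w ∈ Wl f ε₀ (f^[m] (x 1)) := by
      intro i
      rw [← iterate_add_apply, ← iterate_add_apply]
      exact (hw1 (i + m) (by omega)).trans hεε₀
    have h6 := hD.dec _ _ h5 m₀
    rw [← iterate_add_apply, ← iterate_add_apply, add_comm m₀ m] at h6
    refine h6.trans (le_trans ?_ (hpow hD.l_pos hD.l_lt h1 hm₁))
    have h7 : 0 ≤ ν ^ m₀ := pow_nonneg hD.l_pos.le _
    have h8 := hw1 m le_rfl
    gcongr
  have e2 : dist (f.symm^[n + m₀] w) (f.symm^[n + m₀] (σ 1)) ≤ δ := by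
    have h5 : f.symm^[n] w ∈ Wl f.symm ε₀ (f.symm^[n] (σ 1)) := by
      intro i
      rw [← iterate_add_apply, ← iterate_add_apply]
      exact (hw2 (i + n) (by omega)).trans hεε₀
    have h6 := hD'.dec _ _ h5 m₀
    rw [← iterate_add_apply, ← iterate_add_apply, add_comm m₀ n] at h6
    refine h6.trans (le_trans ?_ (hpow hD'.l_pos hD'.l_lt h2 hm₂))
    have h7 : 0 ≤ θ ^ m₀ := pow_nonneg hD'.l_pos.le _
    have h8 := hw2 n le_rfl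
    gcongr
  have e3 : f (f.symm^[n + m₀] w) ∈ U := hδ1 _ hσU _ e2
  have e4 : f^[m + m₀] w ∈ f '' closure U := by
    refine ⟨f^[n + m₀ + (m + m₀) - 2] (f (f.symm^[n + m₀] w)),
      subset_closure (iterate_mem_of_trap htrap e3 _), ?_⟩
    rw [← iterate_succ_apply' (⇑f), ← iterate_succ_apply (⇑f)]
    have e : (n + m₀ + (m + m₀) - 2).succ.succ = (m + m₀) + (n + m₀) := by omega
    rw [e, iterate_add_apply, iterate_symm_iterate]
  exact hδ2 _ hxU _ e1 e4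

/-- Exponents: the product inequality. -/
theorem exponent_ineq {α₁ α₂ β₁ β₂ C₁ C₂ Λ Λ' : ℝ} (hα₁ : 0 < α₁) (hα : α₁ ≤ α₂)
    (hβ₁ : 0 < β₁) (hβ : β₁ ≤ β₂) (hC₁ : 0 ≤ C₁) (hC₂ : 0 ≤ C₂) (hΛ : 0 ≤ Λ) (hΛ' : 0 ≤ Λ')
    {m₀ : ℕ} (H : ∀ m n : ℕ, m₀ ≤ m → m₀ ≤ n → ∃ K L : ℕ, (K : ℝ) ≤ Λ * Real.exp (α₂ * m) ∧
      (L : ℝ) ≤ Λ' * Real.exp (β₂ * n) ∧ (C₁ * K < Real.exp (α₁ * (n + m - m₀)) →
        Real.exp (β₁ * (n + m - m₀)) ≤ C₂ * L)) :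
    α₁ * β₁ ≤ (α₂ - α₁) * (β₂ - β₁) := by
  by_contra hcon
  push Not at hcon
  set a : ℝ := α₂ / α₁ - 1 with ha
  set b : ℝ := β₂ / β₁ - 1 with hb
  have ha0 : 0 ≤ a := by
    have : 1 ≤ α₂ / α₁ := by
      rw [one_le_div hα₁]
      exact hα
    linarith
  have hb0 : 0 ≤ b := by
    have : 1 ≤ β₂ / β₁ := by
      rw [one_le_div hβ₁]
      exact hβ
    linarith
  have hab' : a * b < 1 := by
    have e1 : a * b = ((α₂ - α₁) * (β₂ - β₁)) / (α₁ * β₁) := by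
      rw [ha, hb]
      field_simp
    rw [e1, div_lt_one (mul_pos hα₁ hβ₁)]
    exact hcon
  have eα : α₂ = α₁ * (1 + a) := by rw [ha]; field_simp; ring
  have eβ : β₂ = β₁ * (1 + b) := by rw [hb]; field_simp; ring
  obtain ⟨c₁, hc₁, hc₁'⟩ := exists_const α₁ (C₁ * Λ + 2) hα₁ (by
    have : 0 ≤ C₁ * Λ := mul_nonneg hC₁ hΛ
    linarith)
  obtain ⟨c₂, hc₂, hc₂'⟩ := exists_const β₁ (C₂ * Λ' + 2) hβ₁ (by
    have : 0 ≤ C₂ * Λ' := mul_nonneg hC₂ hΛ'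
    linarith)
  set c : ℝ := max c₁ c₂ + m₀ + 1 with hc
  have hc1 : c₁ + m₀ + 1 ≤ c := by
    have := le_max_left c₁ c₂
    linarith
  have hc2 : c₂ + m₀ + 1 ≤ c := by
    have := le_max_right c₁ c₂
    linarith
  have hc0 : 0 ≤ c := by
    have h1 : (0 : ℝ) ≤ c₁ := hc₁
    have h2 : (0 : ℝ) ≤ m₀ := Nat.cast_nonneg _
    linarith
  -- the choice of the level
  have h1ab : 0 < 1 - a * b := by linarith
  obtain ⟨m, hm⟩ := exists_nat_gt ((b * (c + 1) + c) / (1 - a * b) + m₀)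
  obtain ⟨n, hn⟩ : ∃ n : ℕ, n = ⌈a * m + c⌉₊ := ⟨_, rfl⟩
  have hn1 : a * m + c ≤ n := by rw [hn]; exact Nat.le_ceil _
  have hn2 : (n : ℝ) < a * m + c + 1 := by
    rw [hn]
    exact Nat.ceil_lt_add_one (by positivity)
  have hm1 : b * n + c ≤ m := by
    have h1 : (b * (c + 1) + c) / (1 - a * b) ≤ m := by
      have : (0 : ℝ) ≤ m₀ := Nat.cast_nonneg _
      linarith
    rw [div_le_iff₀ h1ab] at h1
    have h2 : b * n ≤ b * (a * m + c + 1) := mul_le_mul_of_nonneg_left hn2.le hb0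
    nlinarith
  have hm2 : m₀ ≤ m := by
    have h1 : 0 ≤ (b * (c + 1) + c) / (1 - a * b) := by positivity
    have : (m₀ : ℝ) ≤ m := by linarith
    exact_mod_cast this
  have hn3 : m₀ ≤ n := by
    have h1 : 0 ≤ a * m := by positivity
    have : (m₀ : ℝ) ≤ n := by linarith
    exact_mod_cast this
  obtain ⟨K, L, hK, hL, hKL⟩ := H m n hm2 hn3
  have h1 : C₁ * K < Real.exp (α₁ * (n + m - m₀)) := by
    have h2 : C₁ * K ≤ C₁ * Λ * Real.exp (α₂ * m) := by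
      calc C₁ * K ≤ C₁ * (Λ * Real.exp (α₂ * m)) := by gcongr
        _ = _ := by ring
    have h3 : C₁ * Λ * Real.exp (α₂ * m) < Real.exp (α₁ * c₁) * Real.exp (α₂ * m) :=
      mul_lt_mul_of_pos_right (by linarith) (Real.exp_pos _)
    have h4 : Real.exp (α₁ * c₁) * Real.exp (α₂ * m) ≤ Real.exp (α₁ * (n + m - m₀)) := by
      rw [← Real.exp_add]
      apply Real.exp_le_exp.2
      rw [eα]
      have : α₁ * (c₁ + (1 + a) * m) ≤ α₁ * (n + m - m₀) :=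
        mul_le_mul_of_nonneg_left (by linarith) hα₁.le
      linarith
    linarith
  have h2 := hKL h1
  have h3 : C₂ * L < Real.exp (β₁ * (n + m - m₀)) := by
    have h2 : C₂ * L ≤ C₂ * Λ' * Real.exp (β₂ * n) := by
      calc C₂ * L ≤ C₂ * (Λ' * Real.exp (β₂ * n)) := by gcongr
        _ = _ := by ring
    have h3 : C₂ * Λ' * Real.exp (β₂ * n) < Real.exp (β₁ * c₂) * Real.exp (β₂ * n) :=
      mul_lt_mul_of_pos_right (by linarith) (Real.exp_pos _)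
    have h4 : Real.exp (β₁ * c₂) * Real.exp (β₂ * n) ≤ Real.exp (β₁ * (n + m - m₀)) := by
      rw [← Real.exp_add]
      apply Real.exp_le_exp.2
      rw [eβ]
      have : β₁ * (c₂ + (1 + b) * n) ≤ β₁ * (n + m - m₀) :=
        mul_le_mul_of_nonneg_left (by linarith) hβ₁.le
      linarith
    linarith
  linarith

end Pool.Agent.Lib.MP610fe3.H6
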