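import Pool.Agent.Lib.MP_610fe3_an.H6E.Level
import Pool.Agent.Lib.MP_610fe3_an.H6E.Descent
import Pool.Agent.Lib.MP_610fe3_an.Cf.H1Trap

/-!
# The pinching theorem in terms of the exponents of cheap arcs
-/

open Set Filter Function
open scoped Topology

namespace Pool.Agent.Lib.MP610fe3.H6

open Cf

variable {M : Type*} [MetricSpace M] {f : M ≃ₜ M}

/-- Any two neighbouring points of an unstable set are joined, for every time `m`, by an unstable
arc with at most `Λ * exp (b * m)` steps at the time `m`. -/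
def ReachExp (f : M ≃ₜ M) (ε b : ℝ) : Prop :=
  ∃ Λ ε₄ : ℝ, 0 ≤ Λ ∧ 0 < ε₄ ∧ ∀ (m : ℕ) (p : M), ∀ p' ∈ Wl f.symm ε₄ p,
    ∃ K : ℕ, (K : ℝ) ≤ Λ * Real.exp (b * m) ∧ Reach f ε m K p p'

theorem ReachExp.mono {ε b b' : ℝ} (h : ReachExp f ε b) (hb : b ≤ b') : ReachExp f ε b' := by
  obtain ⟨Λ, ε₄, hΛ, hε₄, H⟩ := h
  refine ⟨Λ, ε₄, hΛ, hε₄, fun m p p' hp' => ?_⟩
  obtain ⟨K, hK, hR⟩ := H m p p' hp'
  exact ⟨K, hK.trans (by gcongr), hR⟩

/-- Contraction gives a lower bound for the growth of arcs. -/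
theorem low_of_dec {ε₀ C ε α : ℝ} (hD : Dec f.symm ε₀ C (Real.exp (-α))) (hε : 0 < ε)
    (hε₀ : 3 * C * ε < ε₀) : Low f (3 * ε) α C := by
  intro γ hγ hd n K hS
  have h1 := hγ.dist_le hD hε hε₀ hS 0 (t := 0) (t' := 1) ⟨le_rfl, zero_le_one⟩
    ⟨zero_le_one, le_rfl⟩
  simp only [iterate_zero, id_eq, add_zero] at h1
  have h2 : 3 * ε ≤ K * (3 * ε * C * Real.exp (-α) ^ n) := hd.trans h1
  have h3 : Real.exp (-α) ^ n * Real.exp (α * n) = 1 := by
    rw [← Real.exp_nat_mul, ← Real.exp_add]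
    have : (n : ℝ) * -α + α * n = 0 := by ring
    rw [this, Real.exp_zero]
  have h4 : 3 * ε * Real.exp (α * n) ≤ 3 * ε * (C * K) := by
    calc 3 * ε * Real.exp (α * n) ≤ K * (3 * ε * C * Real.exp (-α) ^ n) * Real.exp (α * n) := by
          gcongr
      _ = 3 * ε * (C * K) * (Real.exp (-α) ^ n * Real.exp (α * n)) := by ring
      _ = 3 * ε * (C * K) := by rw [h3, mul_one]
  exact le_of_mul_le_mul_left h4 (by positivity)

section Ends

variable [CompactSpace M] {U : Set M} {ε CB : ℝ}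

omit [CompactSpace M] in
theorem not_mem_of_late (htrap : f '' closure U ⊆ U) {z : M} {N : ℕ}
    (h : ∀ k ≥ N, f^[k] z ∉ f '' closure U) (k : ℕ) : f^[k] z ∉ U := by
  intro hk
  have h1 := iterate_mem_of_trap htrap hk N
  rw [← iterate_add_apply] at h1
  refine h (N + k + 1) (by omega) ⟨f^[N + k] z, subset_closure h1, ?_⟩
  rw [iterate_succ_apply']

/-- The unstable set of a point outside the trapping region contains a point of the repeller. -/
theorem exists_end_unstable (hB : Br f ε CB) {ε₀ C ν : ℝ} (hD : Dec f ε₀ C ν)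
    (hU : IsOpen U) (htrap : f '' closure U ⊆ U) {q : M} (hq : q ∉ U) {ε' : ℝ} (hε' : 0 < ε') :
    ∃ (n₀ : ℕ) (z : M), z ∈ Wl f.symm ε' (f.symm^[n₀] q) ∧ ∀ k, f^[k] z ∉ U := by
  obtain ⟨δ, hδ, -, hδ2⟩ := exists_trap_const' hU htrap
  obtain ⟨η, hη, hbr⟩ := hB.exist (min ε' ε₀) (lt_min hε' hD.ε_pos)
  obtain ⟨r, -, φ, hφ, hr⟩ := isCompact_univ.tendsto_subseq (x := fun n => f.symm^[n] q)
    (fun n => mem_univ _)
  have hrR : ∀ k, f^[k] r ∉ U := by
    intro k hk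
    have h1 : Tendsto (fun j => f^[k] (f.symm^[φ j] q)) atTop (𝓝 (f^[k] r)) :=
      ((f.continuous.iterate k).tendsto r).comp hr
    obtain ⟨j, hj1, hj2⟩ := ((h1.eventually (hU.mem_nhds hk)).and
      (hφ.tendsto_atTop.eventually_ge_atTop k)).exists
    rw [Cf.iterate_symm_iterate_of_le f hj2] at hj1
    have h2 := iterate_mem_of_trap htrap hj1 (φ j - k)
    rw [Cf.iterate_symm_iterate] at h2
    exact hq h2
  obtain ⟨j, hj⟩ := (hr.eventually (Metric.ball_mem_nhds r hη)).exists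
  replace hj : dist r (f.symm^[φ j] q) < η := by rw [dist_comm]; exact hj
  obtain ⟨z, hz1, hz2⟩ := hbr r _ hj
  refine ⟨φ j, z, Wl_mono (min_le_left _ _) hz2, ?_⟩
  obtain ⟨N, hN⟩ := exists_pow_le (C := C) (ε := ε₀) hD.l_pos hD.l_lt hδ
  refine not_mem_of_late htrap (N := N) fun k hk => ?_
  refine hδ2 _ (hrR k) _ ?_
  have h1 := hD.dec _ _ (Wl_mono (min_le_right _ _) hz1) k
  refine h1.trans (le_trans ?_ hN)
  have h2 : ν ^ k ≤ ν ^ N := pow_le_pow_of_le_one hD.l_pos.le hD.l_lt.le hk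
  have h3 : 0 ≤ ν ^ k := pow_nonneg hD.l_pos.le _
  have h4 : 0 ≤ ν ^ N := pow_nonneg hD.l_pos.le _
  have h5 : dist z r ≤ ε₀ := (Wl_dist hz1).trans (min_le_right _ _)
  have h6 := hD.one_le
  gcongr

/-- The stable set of a point of the trapping region contains a point of the attractor. -/
theorem exists_end_stable (hB : Br f ε CB) {ε₀ C θ : ℝ} (hD : Dec f.symm ε₀ C θ)
    (hU : IsOpen U) (htrap : f '' closure U ⊆ U) {q : M} (hq : q ∈ closure U) {ε' : ℝ}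
    (hε' : 0 < ε') :
    ∃ (n₀ : ℕ) (z : M), z ∈ Wl f ε' (f^[n₀] q) ∧ ∃ N, ∀ k ≥ N, f.symm^[k] z ∈ U := by
  obtain ⟨δ, hδ, hδ1, -⟩ := exists_trap_const' hU htrap
  obtain ⟨η, hη, hbr⟩ := hB.exist (min ε' ε₀) (lt_min hε' hD.ε_pos)
  obtain ⟨a, -, φ, hφ, ha⟩ := isCompact_univ.tendsto_subseq (x := fun n => f^[n] q)
    (fun n => mem_univ _)
  have hqn : ∀ n, f^[n] q ∈ closure U := by
    intro n
    induction n with
    | zero => exact hq
    | succ n ih =>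
      rw [iterate_succ_apply']
      exact subset_closure (htrap ⟨_, ih, rfl⟩)
  have haA : ∀ k, f.symm^[k] a ∈ closure U := by
    intro k
    have h1 : Tendsto (fun j => f.symm^[k] (f^[φ j] q)) atTop (𝓝 (f.symm^[k] a)) :=
      ((f.symm.continuous.iterate k).tendsto a).comp ha
    refine isClosed_closure.mem_of_tendsto h1 ?_
    filter_upwards [hφ.tendsto_atTop.eventually_ge_atTop k] with j hj
    rw [Cf.symm_iterate_iterate_of_le f hj]
    exact hqn _
  obtain ⟨j, hj⟩ := (ha.eventually (Metric.ball_mem_nhds a hη)).exists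
  replace hj : dist (f^[φ j] q) a < η := hj
  obtain ⟨z, hz1, hz2⟩ := hbr _ a hj
  refine ⟨φ j, z, Wl_mono (min_le_left _ _) hz1, ?_⟩
  obtain ⟨N, hN⟩ := exists_pow_le (C := C) (ε := ε₀) hD.l_pos hD.l_lt hδ
  refine ⟨N, fun k hk => ?_⟩
  have h1 := hD.dec _ _ (Wl_mono (min_le_right _ _) hz2) (k + 1)
  have h7 : dist (f.symm^[k + 1] z) (f.symm^[k + 1] a) ≤ δ := by
    refine h1.trans (le_trans ?_ hN)
    have h2 : θ ^ (k + 1) ≤ θ ^ N := pow_le_pow_of_le_one hD.l_pos.le hD.l_lt.le (by omega)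
    have h3 : 0 ≤ θ ^ (k + 1) := pow_nonneg hD.l_pos.le _
    have h4 : 0 ≤ θ ^ N := pow_nonneg hD.l_pos.le _
    have h5 : dist z a ≤ ε₀ := (Wl_dist hz2).trans (min_le_right _ _)
    have h6 := hD.one_le
    gcongr
  have h8 := hδ1 _ (haA (k + 1)) _ h7
  rwa [iterate_succ_apply', Homeomorph.apply_symm_apply] at h8

end Ends

/-- **The pinching theorem.** -/
theorem reach_pinching [CompactSpace M] {ε₀ C ε CB α₁ β₁ bu bs : ℝ} (hα₁ : 0 < α₁)
    (hβ₁ : 0 < β₁) (hD : Dec f ε₀ C (Real.exp (-β₁))) (hD' : Dec f.symm ε₀ C (Real.exp (-α₁)))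
    (hε : 0 < ε) (hε₀ : 3 * C * ε < ε₀) (hB : Br f ε CB) (hbu : α₁ ≤ bu) (hbs : β₁ ≤ bs)
    (hRu : ReachExp f ε bu) (hRs : ReachExp f.symm ε bs) {U : Set M} (hU : IsOpen U)
    (htrap : f '' closure U ⊆ U) {q : M} (hq : q ∈ frontier U) :
    α₁ * β₁ ≤ (bu - α₁) * (bs - β₁) := by
  have hC := hD.one_le
  have h3ε : 3 * ε ≤ ε₀ := by nlinarith
  obtain ⟨m₀, hlev⟩ := level_master hD hD' hε h3ε hB (ε₁ := ε / 4) (by positivity) (by linarith)
    hα₁ hβ₁ (low_of_dec hD' hε hε₀) (low_of_dec (f := f.symm) hD hε hε₀) hU htrap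
  obtain ⟨Λu, ρu, hΛu, hρu, HRu⟩ := hRu
  obtain ⟨Λs, ρs, hΛs, hρs, HRs⟩ := hRs
  have hqU : q ∉ U := by
    rw [hU.frontier_eq] at hq
    exact hq.2
  obtain ⟨n₀, z, hz1, hz2⟩ := exists_end_unstable hB hD hU htrap hqU hρu
  obtain ⟨n₁, y, hy1, N, hy2⟩ := exists_end_stable hB hD' hU htrap (frontier_subset_closure hq) hρs
  refine exponent_ineq (C₁ := C) (C₂ := C) (Λ := Λu * Real.exp (bu * n₀))
    (Λ' := Λs * Real.exp (bs * n₁)) (m₀ := max m₀ N) hα₁ hbu hβ₁ hbs (by linarith) (by linarith)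
    (by positivity) (by positivity) fun m n hm hn => ?_
  obtain ⟨K, hK, hRK⟩ := HRu (m + n₀) _ z hz1
  obtain ⟨L, hL, hRL⟩ := HRs (n + n₁) (f^[n₁] q) y hy1
  refine ⟨K, L, ?_, ?_, fun hCK => ?_⟩
  · refine hK.trans (le_of_eq ?_)
    rw [mul_assoc, ← Real.exp_add]
    congr 2
    push_cast
    ring
  · refine hL.trans (le_of_eq ?_)
    rw [mul_assoc, ← Real.exp_add]
    congr 2
    push_cast
    ring
  · have h1 : Reach f ε m K q (f^[n₀] z) := by
      have := hRK.push n₀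
      rwa [Cf.iterate_symm_iterate] at this
    have h2 : Reach f.symm ε n L q (f.symm^[n₁] y) := by
      have := hRL.push n₁
      rwa [Cf.symm_iterate_iterate] at this
    obtain ⟨x, hxU, hx0, hx1, hxS⟩ := h1
    obtain ⟨σ, hσU, hσ0, hσ1, hσS⟩ := h2
    have hmax : (m₀ : ℝ) ≤ (max m₀ N : ℕ) := by exact_mod_cast le_max_left _ _
    have h3 := hlev x σ m n K L ((le_max_left _ _).trans hm) ((le_max_left _ _).trans hn) hxU hσU
      (hσ0.trans hx0.symm) hxS hσS (by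
        rw [hx1, ← iterate_add_apply]
        exact hz2 _) (by
        rw [hσ1, ← iterate_add_apply]
        have : N ≤ n := (le_max_right _ _).trans hn
        exact subset_closure (hy2 _ (by omega)))
      (hCK.trans_le (Real.exp_le_exp.2 (mul_le_mul_of_nonneg_left (by linarith) hα₁.le)))
    exact (Real.exp_le_exp.2 (mul_le_mul_of_nonneg_left (by linarith) hβ₁.le)).trans h3

end Pool.Agent.Lib.MP610fe3.H6
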