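import Pool.Agent.Lib.MP_610fe3_an.H6E.Spec
import Pool.Agent.Lib.MP_610fe3_an.H6G.Curve

/-!
# Points which are joined by an unstable arc with few steps at a given time
-/

open Set Filter Function MeasureTheory
open scoped Topology

namespace Pool.Agent.Lib.MP610fe3.H6

open Cf

variable {M : Type*} [MetricSpace M] {f : M ≃ₜ M} {ε : ℝ} {m n K L : ℕ} {p q r : M}

/-- The points `p` and `q` are joined by an unstable arc with at most `K` steps of size `ε` at the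
time `m`. -/
def Reach (f : M ≃ₜ M) (ε : ℝ) (m K : ℕ) (p q : M) : Prop :=
  ∃ γ : ℝ → M, UArc f γ 0 1 ∧ γ 0 = p ∧ γ 1 = q ∧ Steps f m ε γ 0 1 K

/-- Reversal of an arc. -/
theorem UArc.rev {γ : ℝ → M} (h : UArc f γ 0 1) : UArc f (fun t => γ (1 - t)) 0 1 := by
  have hm : ∀ t ∈ Icc (0 : ℝ) 1, 1 - t ∈ Icc (0 : ℝ) 1 := fun t ht =>
    ⟨by linarith [ht.2], by linarith [ht.1]⟩
  refine ⟨h.cont.comp (by fun_prop) hm, fun ε hε => ?_⟩
  obtain ⟨N, hN⟩ := h.asymp ε hε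
  exact ⟨N, fun n hn t ht t' ht' => hN n hn _ (hm t ht) _ (hm t' ht')⟩

theorem Steps.rev {γ : ℝ → M} (h : Steps f n ε γ 0 1 K) :
    Steps f n ε (fun t => γ (1 - t)) 0 1 K := by
  obtain ⟨c, hc, h0, hK, H⟩ := h
  refine ⟨fun i => 1 - c (K - i), fun i j hij => ?_, ?_, ?_, fun i hi t ht t' ht' => ?_⟩
  · have := hc (show K - j ≤ K - i by omega)
    dsimp only
    linarith
  · simp [hK]
  · simp [h0]
  · have e1 : K - (i + 1) + 1 = K - i := by omega
    have key : ∀ u ∈ Icc (1 - c (K - i)) (1 - c (K - (i + 1))),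
        1 - u ∈ Icc (c (K - (i + 1))) (c (K - (i + 1) + 1)) := by
      intro u hu
      rw [e1]
      exact ⟨by linarith [hu.2], by linarith [hu.1]⟩
    exact H (K - (i + 1)) (by omega) _ (key t ht) _ (key t' ht')

theorem Reach.symm (h : Reach f ε m K p q) : Reach f ε m K q p := by
  obtain ⟨γ, h1, h2, h3, h4⟩ := h
  exact ⟨fun t => γ (1 - t), h1.rev, by simp [h3], by simp [h2], h4.rev⟩

theorem Reach.refl (hε : 0 ≤ ε) (p : M) : Reach f ε m 1 p p := by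
  refine ⟨fun _ => p, ⟨continuousOn_const, fun ε' hε' => ⟨0, fun n _ t _ t' _ => ?_⟩⟩, rfl, rfl,
    Steps.one zero_le_one fun t _ t' _ => ?_⟩
  · rw [dist_self]
    exact hε'.le
  · rw [dist_self]
    exact hε

theorem Reach.mono (hε : 0 ≤ ε) (h : Reach f ε m K p q) (hKL : K ≤ L) : Reach f ε m L p q := by
  obtain ⟨γ, h1, h2, h3, h4⟩ := h
  exact ⟨γ, h1, h2, h3, h4.mono_card hε hKL⟩

theorem Reach.trans (h : Reach f ε m K p q) (h' : Reach f ε m L q r) :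
    Reach f ε m (K + L) p r := by
  obtain ⟨γ, h1, h2, h3, h4⟩ := h
  obtain ⟨γ', h1', h2', h3', h4'⟩ := h'
  set g : ℝ → M := fun t => if t ≤ 1 / 2 then γ (2 * t) else γ' (2 * t - 1) with hg
  have e1 : ∀ t ∈ Icc (0 : ℝ) (1 / 2), g t = γ (2 * t + 0) := by
    intro t ht
    simp only [hg, if_pos ht.2, add_zero]
  have e2 : ∀ t ∈ Icc (1 / 2 : ℝ) 1, g t = γ' (2 * t + (-1)) := by
    intro t ht
    rcases eq_or_lt_of_le ht.1 with h | h
    · subst h
      have a1 : (2 : ℝ) * (1 / 2) = 1 := by norm_num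
      have a2 : (2 : ℝ) * (1 / 2) + (-1) = 0 := by norm_num
      simp only [hg, if_pos le_rfl, a1, a2, h3, h2']
      norm_num
      exact h2'.symm
    · simp only [hg, if_neg (not_le.2 h)]
      rfl
  have a1 : UArc f g 0 (1 / 2) :=
    (h1.affine (α := 2) (β := 0) (c := 0) (d := 1 / 2) (by norm_num) (by norm_num)
      (by norm_num)).congr e1
  have a2 : UArc f g (1 / 2) 1 :=
    (h1'.affine (α := 2) (β := -1) (c := 1 / 2) (d := 1) (by norm_num) (by norm_num)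
      (by norm_num)).congr e2
  have b1 : Steps f m ε g 0 (1 / 2) K := by
    refine (Steps.affine (α := 2) (β := 0) (c := 0) (d := 1 / 2) ?_ (by norm_num)).congr e1
    have c1 : (2 : ℝ) * 0 + 0 = 0 := by norm_num
    have c2 : (2 : ℝ) * (1 / 2) + 0 = 1 := by norm_num
    rw [c1, c2]
    exact h4
  have b2 : Steps f m ε g (1 / 2) 1 L := by
    refine (Steps.affine (α := 2) (β := -1) (c := 1 / 2) (d := 1) ?_ (by norm_num)).congr e2
    have c1 : (2 : ℝ) * (1 / 2) + (-1) = 0 := by norm_num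
    have c2 : (2 : ℝ) * 1 + (-1) = 1 := by norm_num
    rw [c1, c2]
    exact h4'
  refine ⟨g, a1.union (by norm_num) (by norm_num) a2, ?_, ?_, b1.append b2⟩
  · rw [e1 0 ⟨le_rfl, by norm_num⟩]
    simpa using h2
  · rw [e2 1 ⟨by norm_num, le_rfl⟩]
    have : (2 : ℝ) * 1 + (-1) = 1 := by norm_num
    rw [this, h3']

/-- Preimages. -/
theorem Reach.pull (n : ℕ) (h : Reach f ε m K (f^[n] p) (f^[n] q)) :
    Reach f ε (m + n) K p q := by
  obtain ⟨γ, h1, h2, h3, h4⟩ := h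
  refine ⟨fun t => f.symm^[n] (γ t), h1.symm_iter n, ?_, ?_, h4.symm_iter⟩
  · simp only [h2]
    exact Cf.symm_iterate_iterate f n p
  · simp only [h3]
    exact Cf.symm_iterate_iterate f n q

/-- Images. -/
theorem Reach.push (n : ℕ) (h : Reach f ε (m + n) K p q) :
    Reach f ε m K (f^[n] p) (f^[n] q) := by
  obtain ⟨γ, h1, h2, h3, h4⟩ := h
  exact ⟨fun t => f^[n] (γ t), h1.iter n, by simp only [h2], by simp only [h3], h4.iter⟩

theorem Reach.push' (n : ℕ) (h : Reach f ε (m + n) K (f.symm^[n] p) (f.symm^[n] q)) :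
    Reach f ε m K p q := by
  have := h.push n
  rwa [Cf.iterate_symm_iterate, Cf.iterate_symm_iterate] at this

/-- Uniform parametrizations of unstable plaques by balls of a Euclidean space. -/
structure UPlaq (f : M ≃ₜ M) (u : ℕ) (ρ Λ : ℝ) (φ : M → EuclideanSpace ℝ (Fin u) → M) : Prop where
  ρ_pos : 0 < ρ
  one_le : 1 ≤ Λ
  zero : ∀ x, φ x 0 = x
  upper : ∀ x, ∀ a ∈ Metric.closedBall 0 ρ, ∀ b ∈ Metric.closedBall 0 ρ,
    dist (φ x a) (φ x b) ≤ Λ * dist a b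
  lower : ∀ x, ∀ a ∈ Metric.closedBall 0 ρ, ∀ b ∈ Metric.closedBall 0 ρ,
    dist a b ≤ Λ * dist (φ x a) (φ x b)
  mem : ∀ ε' : ℝ, 0 < ε' → ∃ r : ℝ, 0 < r ∧ r ≤ ρ ∧ ∀ x, ∀ a ∈ Metric.closedBall 0 r,
    φ x a ∈ Wl f.symm ε' x
  onto : ∀ r : ℝ, 0 < r → ∃ ε' : ℝ, 0 < ε' ∧ ∀ x, ∀ z ∈ Wl f.symm ε' x,
    ∃ a ∈ Metric.closedBall 0 r, φ x a = z

variable {u : ℕ} {ρ Λ ε₀ C θ : ℝ} {φ : M → EuclideanSpace ℝ (Fin u) → M}

theorem UPlaq.continuousOn (h : UPlaq f u ρ Λ φ) (x : M) :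
    ContinuousOn (φ x) (Metric.closedBall 0 ρ) := by
  have hΛ : 0 ≤ Λ := by linarith [h.one_le]
  have : LipschitzOnWith ⟨Λ, hΛ⟩ (φ x) (Metric.closedBall 0 ρ) :=
    LipschitzOnWith.of_dist_le_mul fun a ha b hb => h.upper x a ha b hb
  exact this.continuousOn

/-- Small unstable arcs. -/
theorem UPlaq.exists_reach (h : UPlaq f u ρ Λ φ) (hD : Dec f.symm ε₀ C θ) (hε : 0 < ε) :
    ∃ ε₃ : ℝ, 0 < ε₃ ∧ ε₃ ≤ ε₀ ∧ ∀ x, ∀ z ∈ Wl f.symm ε₃ x, Reach f ε 0 1 x z := by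
  have hC := hD.one_le
  obtain ⟨r, hr, hrρ, hmem⟩ := h.mem (min (ε / 2) ε₀) (lt_min (by positivity) hD.ε_pos)
  obtain ⟨ε₃, hε₃, honto⟩ := h.onto r hr
  refine ⟨min ε₃ ε₀, lt_min hε₃ hD.ε_pos, min_le_right _ _, fun x z hz => ?_⟩
  obtain ⟨a, ha, rfl⟩ := honto x z (Wl_mono (min_le_left _ _) hz)
  rw [mem_closedBall_zero_iff] at ha
  have hta : ∀ t ∈ Icc (0 : ℝ) 1, t • a ∈ Metric.closedBall (0 : EuclideanSpace ℝ (Fin u)) r := by
    intro t ht
    rw [mem_closedBall_zero_iff, norm_smul, Real.norm_eq_abs, abs_of_nonneg ht.1]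
    have := norm_nonneg a
    nlinarith [ht.2]
  have hc : ContinuousOn (fun t : ℝ => φ x (t • a)) (Icc 0 1) :=
    (h.continuousOn x).comp (by fun_prop) fun t ht =>
      Metric.closedBall_subset_closedBall hrρ (hta t ht)
  refine ⟨fun t => φ x (t • a), ⟨hc, fun ε' hε' => ?_⟩, by simp [h.zero], by simp,
    Steps.one zero_le_one fun t ht t' ht' => ?_⟩
  · obtain ⟨N, hN⟩ := exists_pow_le (C := C) (ε := ε₀) hD.l_pos hD.l_lt
      (show (0 : ℝ) < ε' / 2 by positivity)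
    refine ⟨N, fun n hn t ht t' ht' => ?_⟩
    have key : ∀ t ∈ Icc (0 : ℝ) 1, dist (f.symm^[n] (φ x (t • a))) (f.symm^[n] x) ≤ ε' / 2 := by
      intro t ht
      have h1 := Wl_mono (min_le_right _ _) (hmem x _ (hta t ht))
      refine (hD.dec _ _ h1 n).trans (le_trans ?_ hN)
      have h2 : θ ^ n ≤ θ ^ N := pow_le_pow_of_le_one hD.l_pos.le hD.l_lt.le hn
      have h3 : 0 ≤ θ ^ n := pow_nonneg hD.l_pos.le _
      have h4 : 0 ≤ θ ^ N := pow_nonneg hD.l_pos.le _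
      have h5 := Wl_dist h1
      gcongr
    have h1 := key t ht
    have h2 := key t' ht'
    have h3 := dist_triangle_right (f.symm^[n] (φ x (t • a))) (f.symm^[n] (φ x (t' • a)))
      (f.symm^[n] x)
    linarith
  · have h1 := Wl_dist (hmem x _ (hta t ht))
    have h2 := Wl_dist (hmem x _ (hta t' ht'))
    have h3 := dist_triangle_right (φ x (t • a)) (φ x (t' • a)) x
    have h4 : min (ε / 2) ε₀ ≤ ε / 2 := min_le_left _ _
    simp only [iterate_zero, id_eq]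
    linarith

/-- Points which stay close together are joined by one step. -/
theorem reach_of_bowen {ε₃ : ℝ} (h : ∀ x, ∀ z ∈ Wl f.symm ε₃ x, Reach f ε 0 1 x z)
    {x z : M} (hz : z ∈ Wl f.symm ε₃ x) (m : ℕ)
    (hm : ∀ k ≤ m, dist (f^[k] z) (f^[k] x) ≤ ε₃) : Reach f ε m 1 x z := by
  have h1 : f^[m] z ∈ Wl f.symm ε₃ (f^[m] x) := by
    intro k
    rcases le_total k m with hk | hk
    · rw [Cf.symm_iterate_iterate_of_le f hk, Cf.symm_iterate_iterate_of_le f hk]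
      exact hm _ (Nat.sub_le _ _)
    · obtain ⟨j, rfl⟩ := Nat.exists_eq_add_of_le hk
      rw [add_comm m j, iterate_add_apply, iterate_add_apply, Cf.symm_iterate_iterate,
        Cf.symm_iterate_iterate]
      exact hz j
  have h2 := (h _ _ h1).pull m
  rwa [Nat.zero_add] at h2

/-- Chains of cells give arcs. -/
theorem reach_of_linked (hε : 0 ≤ ε) {ι : Type*} {D : ι → Set (EuclideanSpace ℝ (Fin u))}
    {B : Set (EuclideanSpace ℝ (Fin u))} {ψ : EuclideanSpace ℝ (Fin u) → M}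
    (h : ∀ j, ∀ a ∈ D j, ∀ b ∈ D j, a ∈ B → b ∈ B → Reach f ε m 1 (ψ a) (ψ b))
    {a b : EuclideanSpace ℝ (Fin u)} (hl : Linked D B K a b) :
    Reach f ε m (K + 1) (ψ a) (ψ b) := by
  obtain ⟨L, p, hLK, h0, hL, hB, hp⟩ := hl
  have key : ∀ i ≤ L, Reach f ε m (i + 1) (ψ a) (ψ (p i)) := by
    intro i
    induction i with
    | zero =>
      intro _
      rw [h0]
      exact Reach.refl hε _
    | succ i ih =>
      intro hi
      obtain ⟨j, hj1, hj2⟩ := hp i (by omega)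
      have := (ih (by omega)).trans (h j _ hj1 _ hj2 (hB i (by omega)) (hB (i + 1) hi))
      exact this
  have := key L le_rfl
  rw [hL] at this
  exact this.mono hε (by omega)

end Pool.Agent.Lib.MP610fe3.H6
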