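import Pool.Agent.Lib.MP_610fe3_an.H6G.Arc

/-!
# Entropy pinching: specifications of the modules
-/

open Set Filter Function MeasureTheory
open scoped Topology

namespace Pool.Agent.Lib.MP610fe3.H6

/-- `z` and `w` are joined by a chain of at most `K` of the sets `D i` (inside `B`). -/
def Linked {X : Type*} {ι : Type*} (D : ι → Set X) (B : Set X) (K : ℕ) (z w : X) : Prop :=
  ∃ (L : ℕ) (p : ℕ → X), L ≤ K ∧ p 0 = z ∧ p L = w ∧ (∀ i ≤ L, p i ∈ B) ∧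
    ∀ i < L, ∃ j, p i ∈ D j ∧ p (i + 1) ∈ D j

/-- Module AVG (averaging over straight segments). -/
def SpecAvg : Prop :=
  ∀ (u : ℕ), 1 ≤ u → ∀ ρ : ℝ, 0 < ρ → ∃ C : ℝ, 0 < C ∧
    ∀ (N : ℕ) (D : Fin N → Set (EuclideanSpace ℝ (Fin u))) (r : Fin N → ℝ),
      (∀ i, IsClosed (D i)) → Metric.closedBall (0 : EuclideanSpace ℝ (Fin u)) ρ ⊆ ⋃ i, D i →
      (∀ i, 0 < r i) → (∀ i, ∀ a ∈ D i, ∀ b ∈ D i, dist a b ≤ r i) →
      ∀ (K : ℕ) (G H : Set (EuclideanSpace ℝ (Fin u))),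
        G ⊆ Metric.closedBall 0 ρ → H ⊆ Metric.closedBall 0 ρ →
        (∀ z ∈ G, ∀ w ∈ H, ¬ Linked D (Metric.closedBall 0 ρ) K z w) →
        (K : ENNReal) * volume G * volume H ≤ ENNReal.ofReal (C * ∑ i, r i ^ (u - 1))

/-- Module ENT (covers by Bowen balls from the topological entropy). -/
def SpecEnt.{v} : Prop :=
  ∀ (M : Type v) [MetricSpace M] [CompactSpace M] (T : M → M), Continuous T →
    ∀ h : ℝ, Dynamics.coverEntropy T (univ : Set M) < (h : EReal) → ∀ ε : ℝ, 0 < ε →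
    ∃ Λ : ℝ, ∀ n : ℕ, ∃ (N : ℕ) (D : Fin N → Set M), (N : ℝ) ≤ Λ * Real.exp (h * n) ∧
      (∀ i, IsClosed (D i)) ∧ (⋃ i, D i) = univ ∧
      ∀ i, ∀ y ∈ D i, ∀ y' ∈ D i, ∀ k ≤ n, dist (T^[k] y) (T^[k] y') ≤ ε

end Pool.Agent.Lib.MP610fe3.H6
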